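import Mathlib
import Pool.Agent.Zk43.HS.Main

/-!
# Integral points of Mordell curves with ordinate near an `S`-unit: real estimates
-/

set_option autoImplicit false

open Finset Filter Topology

namespace Pool.Agent.Zk43.HO

open Pool.Agent.Zk43.HS (Smooth)

/-- the data -/
structure Pt where
  x : ℤ
  y : ℤ
  r : ℤ
  w₁ : ℕ
  w₂ : ℕ
  n : ℕ

noncomputable def Pt.R (h : ℤ) (k₂ : ℕ) (p : Pt) : ℝ := (p.n : ℝ) * p.r / (h * k₂ * (p.w₂ : ℝ) ^ 3)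

/-- the common conditions -/
structure Ok (S : Finset ℕ) (a h : ℤ) (k₁ k₂ : ℕ) (B : ℝ) (p : Pt) : Prop where
  s1 : Smooth S p.w₁
  s2 : Smooth S p.w₂
  sn : Smooth S p.n
  b1 : (p.w₁ : ℝ) ≤ (p.x : ℝ) ^ B
  b2 : (p.w₂ : ℝ) ≤ (p.x : ℝ) ^ B
  eq : h * k₂ * p.w₂ ^ 3 * p.y = a * k₁ * p.w₁ ^ 3 + p.n * p.r
  xpos : 16 ≤ p.x
  ypos : 0 < p.y
  ne : p.y ^ 2 ≠ p.x ^ 3
  d2 : |(p.y : ℝ) ^ 2 - (p.x : ℝ) ^ 3| ≤ (p.x : ℝ) ^ 2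
  R4 : |p.R h k₂| ≤ (p.x : ℝ) ^ (3 / 4 : ℝ)

/-- fixed parameters -/
structure Fix (a h : ℤ) (k₁ k₂ : ℕ) (B δ : ℝ) : Prop where
  a0 : a ≠ 0
  h0 : h ≠ 0
  k1 : k₁ ≠ 0
  k2 : k₂ ≠ 0
  B0 : 0 ≤ B
  δ0 : 0 < δ

variable {S : Finset ℕ} {a h : ℤ} {k₁ k₂ : ℕ} {B δ : ℝ} {p : Pt}

/-- the quotient of the leading coefficients -/
noncomputable def AA (a h : ℤ) (k₁ k₂ : ℕ) : ℝ := (a : ℝ) * k₁ / (h * k₂)

/-- its cube root -/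
noncomputable def cr (a h : ℤ) (k₁ k₂ : ℕ) : ℝ := (AA a h k₁ k₂) ^ (1 / 3 : ℝ)

lemma cr_pow {t : ℝ} (ht : 0 ≤ t) : (t ^ (1 / 3 : ℝ)) ^ 3 = t := by
  rw [← Real.rpow_natCast, ← Real.rpow_mul ht]
  norm_num

noncomputable def Pt.W (p : Pt) : ℝ := (p.w₁ : ℝ) / p.w₂

noncomputable def Pt.V (a h : ℤ) (k₁ k₂ : ℕ) (p : Pt) : ℝ := cr a h k₁ k₂ * p.W

noncomputable def Pt.T (p : Pt) : ℝ := Real.log p.x

noncomputable def Pt.Z (p : Pt) : ℝ := (p.y : ℝ) ^ (1 / 3 : ℝ)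

/-- the size of `d` -/
noncomputable def Pt.D (p : Pt) : ℝ := |(p.y : ℝ) ^ 2 - (p.x : ℝ) ^ 3|

/-- the linear forms -/
noncomputable def Pt.L2 (a h : ℤ) (k₁ k₂ : ℕ) (p : Pt) : ℝ :=
  p.x - p.V a h k₁ k₂ ^ 2 - 2 / 3 * p.R h k₂ / p.V a h k₁ k₂

noncomputable def Pt.L3 (a h : ℤ) (k₁ k₂ : ℕ) (p : Pt) : ℝ :=
  p.x ^ 2 + 2 * p.V a h k₁ k₂ ^ 2 * p.x - 3 * p.V a h k₁ k₂ ^ 4 - 8 / 3 * p.V a h k₁ k₂ * p.R h k₂

section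
variable (f : Fix a h k₁ k₂ B δ) (o : Ok S a h k₁ k₂ B p)
include f o

lemma Ok.xR : (16 : ℝ) ≤ p.x := by exact_mod_cast o.xpos

lemma Ok.x0 : (0 : ℝ) < p.x := by linarith [o.xR f]

lemma Ok.y0 : (0 : ℝ) < p.y := by exact_mod_cast o.ypos

lemma Ok.w1 : (0 : ℝ) < p.w₁ := by exact_mod_cast Nat.pos_of_ne_zero o.s1.1

lemma Ok.w2 : (0 : ℝ) < p.w₂ := by exact_mod_cast Nat.pos_of_ne_zero o.s2.1

lemma Ok.n0 : (1 : ℝ) ≤ p.n := by exact_mod_cast Nat.pos_of_ne_zero o.sn.1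

lemma Ok.T1 : 1 ≤ p.T := by
  unfold Pt.T
  rw [Real.le_log_iff_exp_le (o.x0 f)]
  have := Real.exp_one_lt_d9
  linarith [o.xR f]

lemma Ok.expT : Real.exp p.T = p.x := Real.exp_log (o.x0 f)

lemma Ok.rpow (c : ℝ) : (p.x : ℝ) ^ c = Real.exp (c * p.T) := by
  rw [Real.rpow_def_of_pos (o.x0 f), mul_comm]
  rfl

lemma Ok.D0 : 0 ≤ p.D := abs_nonneg _

lemma Ok.eqR : (h : ℝ) * k₂ * (p.w₂ : ℝ) ^ 3 * p.y = a * k₁ * (p.w₁ : ℝ) ^ 3 + p.n * p.r := by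
  exact_mod_cast o.eq

lemma Ok.yeq : (p.y : ℝ) = AA a h k₁ k₂ * p.W ^ 3 + p.R h k₂ := by
  have h1 : (h : ℝ) ≠ 0 := by exact_mod_cast f.h0
  have h2 : (k₂ : ℝ) ≠ 0 := by exact_mod_cast f.k2
  have h3 := (o.w2 f).ne'
  have h4 := o.eqR f
  unfold AA Pt.W Pt.R
  field_simp
  linarith

/-- `exp (T / 2)` -/
lemma Ok.e2 : Real.exp (p.T / 2) ^ 2 = p.x := by
  rw [← o.expT f, ← Real.exp_nat_mul]
  congr 1
  push_cast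
  ring

lemma Ok.e4 : (4 : ℝ) ≤ Real.exp (p.T / 2) := by
  have h1 := o.e2 f
  have h2 := o.xR f
  have h3 := Real.exp_pos (p.T / 2)
  nlinarith

lemma Ok.ybd : 15 / 16 * Real.exp (p.T / 2) ^ 3 ≤ p.y ∧ (p.y : ℝ) ≤ 17 / 16 * Real.exp (p.T / 2) ^ 3 := by
  have h1 := o.e2 f
  have hx := o.xR f
  have hy := o.y0 f
  have he := o.e4 f
  have hd := abs_le.1 o.d2
  set e := Real.exp (p.T / 2)
  have hx3 : (p.x : ℝ) ^ 2 ≤ (p.x : ℝ) ^ 3 / 16 := by nlinarith [sq_nonneg (p.x : ℝ)]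
  have h6 : (p.x : ℝ) ^ 3 = (e ^ 3) ^ 2 := by rw [← h1]; ring
  have he3 : 0 < e ^ 3 := by positivity
  constructor
  · rw [← sq_le_sq₀ (by positivity) hy.le]
    nlinarith [hd.1]
  · rw [← sq_le_sq₀ hy.le (by positivity)]
    nlinarith [hd.2]

lemma Ok.Rbd : |p.R h k₂| ≤ Real.exp (p.T / 2) ^ 3 / 8 := by
  refine o.R4.trans ?_
  have h1 : (p.x : ℝ) ^ (3 / 4 : ℝ) = Real.exp (3 / 4 * p.T) := o.rpow f _
  have h2 : Real.exp (p.T / 2) ^ 3 = Real.exp (3 / 4 * p.T) ^ 2 := by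
    rw [← Real.exp_nat_mul, ← Real.exp_nat_mul]
    congr 1
    push_cast
    ring
  have h3 : (8 : ℝ) ≤ Real.exp (3 / 4 * p.T) := by
    have h4 : Real.exp (3 / 4 * p.T) ^ 2 = Real.exp (p.T / 2) ^ 3 := h2.symm
    have h5 := o.e4 f
    have h6 : (4 : ℝ) ^ 3 ≤ Real.exp (p.T / 2) ^ 3 := pow_le_pow_left₀ (by norm_num) h5 3
    have h7 := Real.exp_pos (3 / 4 * p.T)
    nlinarith
  rw [h1, h2]
  nlinarith [Real.exp_pos (3 / 4 * p.T)]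

lemma Ok.Wpos : 0 < p.W := div_pos (o.w1 f) (o.w2 f)

lemma Ok.Apos : 0 < AA a h k₁ k₂ := by
  have h1 := o.yeq f
  have h2 := abs_le.1 (o.Rbd f)
  have h3 : 0 < p.W ^ 3 := pow_pos (o.Wpos f) 3
  have h4 := (o.ybd f).1
  have h5 := Real.exp_pos (p.T / 2)
  have h6 : 0 < Real.exp (p.T / 2) ^ 3 := by positivity
  by_contra hcon
  push Not at hcon
  have h5 : AA a h k₁ k₂ * p.W ^ 3 ≤ 0 := mul_nonpos_of_nonpos_of_nonneg hcon h3.le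
  linarith [h2.2]

lemma Ok.crpos : 0 < cr a h k₁ k₂ := Real.rpow_pos_of_pos (o.Apos f) _

lemma Ok.Vpos : 0 < p.V a h k₁ k₂ := mul_pos (o.crpos f) (o.Wpos f)

lemma Ok.cr3 : cr a h k₁ k₂ ^ 3 = AA a h k₁ k₂ := cr_pow (o.Apos f).le

lemma Ok.Vcu : p.V a h k₁ k₂ ^ 3 = p.y - p.R h k₂ := by
  unfold Pt.V
  rw [mul_pow, o.cr3 f]
  linarith [o.yeq f]

lemma Ok.Vbd : Real.exp (p.T / 2) ≤ 2 * p.V a h k₁ k₂ ∧ p.V a h k₁ k₂ ≤ 2 * Real.exp (p.T / 2) := by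
  have h1 := o.Vcu f
  have h2 := abs_le.1 (o.Rbd f)
  have h3 := o.ybd f
  have h4 := o.Vpos f
  have h5 := Real.exp_pos (p.T / 2)
  constructor
  · rw [← pow_le_pow_iff_left₀ h5.le (by positivity) (three_ne_zero)]
    have : 0 < Real.exp (p.T / 2) ^ 3 := by positivity
    nlinarith [h2.1, h2.2, h3.1, h3.2]
  · rw [← pow_le_pow_iff_left₀ h4.le (by positivity) (three_ne_zero)]
    have : 0 < Real.exp (p.T / 2) ^ 3 := by positivity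
    nlinarith [h2.1, h2.2, h3.1, h3.2]

lemma Ok.Zpos : 0 < p.Z := Real.rpow_pos_of_pos (o.y0 f) _

lemma Ok.Zcu : p.Z ^ 3 = p.y := cr_pow (o.y0 f).le

lemma Ok.Zbd : Real.exp (p.T / 2) ≤ 2 * p.Z ∧ p.Z ≤ 2 * Real.exp (p.T / 2) := by
  have h1 := o.Zcu f
  have h3 := o.ybd f
  have h4 := o.Zpos f
  have h5 := Real.exp_pos (p.T / 2)
  constructor
  · rw [← pow_le_pow_iff_left₀ h5.le (by positivity) (three_ne_zero)]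
    have : 0 < Real.exp (p.T / 2) ^ 3 := by positivity
    nlinarith [h3.1, h3.2]
  · rw [← pow_le_pow_iff_left₀ h4.le (by positivity) (three_ne_zero)]
    have : 0 < Real.exp (p.T / 2) ^ 3 := by positivity
    nlinarith [h3.1, h3.2]

lemma Ok.ReqZV : p.R h k₂ = (p.Z - p.V a h k₁ k₂) * (p.Z ^ 2 + p.Z * p.V a h k₁ k₂ + p.V a h k₁ k₂ ^ 2) := by
  have h1 := o.Vcu f
  have h2 := o.Zcu f
  have h3 : p.R h k₂ = p.Z ^ 3 - p.V a h k₁ k₂ ^ 3 := by rw [h2, h1]; ring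
  rw [h3]
  ring

lemma Ok.ZV : |p.Z - p.V a h k₁ k₂| * p.x ≤ 4 * |p.R h k₂| ∧ |p.R h k₂| ≤ 12 * p.x * |p.Z - p.V a h k₁ k₂| := by
  have h1 := o.ReqZV f
  have hV := o.Vpos f
  have hZ := o.Zpos f
  obtain ⟨v1, v2⟩ := o.Vbd f
  obtain ⟨z1, z2⟩ := o.Zbd f
  have he := o.e2 f
  have he0 := Real.exp_pos (p.T / 2)
  set V := p.V a h k₁ k₂
  set Z := p.Z
  set e := Real.exp (p.T / 2)
  have hq : 0 < Z ^ 2 + Z * V + V ^ 2 := by positivity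
  rw [h1, abs_mul, abs_of_pos hq, ← he]
  have ha := abs_nonneg (Z - V)
  constructor
  · have h2 : e ^ 2 ≤ 4 * (Z ^ 2 + Z * V + V ^ 2) := by nlinarith [mul_pos hZ hV]
    calc |Z - V| * e ^ 2 ≤ |Z - V| * (4 * (Z ^ 2 + Z * V + V ^ 2)) := by gcongr
      _ = _ := by ring
  · have h2 : Z ^ 2 + Z * V + V ^ 2 ≤ 12 * e ^ 2 := by
      have h3 : Z ^ 2 ≤ 4 * e ^ 2 := by nlinarith
      have h4 : V ^ 2 ≤ 4 * e ^ 2 := by nlinarith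
      have h5 : Z * V ≤ 4 * e ^ 2 := by nlinarith
      linarith
    calc |Z - V| * (Z ^ 2 + Z * V + V ^ 2) ≤ |Z - V| * (12 * e ^ 2) := by gcongr
      _ = _ := by ring

lemma Ok.xZ : |(p.x : ℝ) - p.Z ^ 2| * (p.x : ℝ) ^ 2 ≤ p.D := by
  have hx := o.x0 f
  have hZ := o.Zpos f
  have h1 := o.Zcu f
  have h2 : ((p.x : ℝ) - p.Z ^ 2) * ((p.x : ℝ) ^ 2 + p.x * p.Z ^ 2 + p.Z ^ 4) = -((p.y : ℝ) ^ 2 - (p.x : ℝ) ^ 3) := by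
    rw [← h1]
    ring
  have h3 : 0 < (p.x : ℝ) ^ 2 + p.x * p.Z ^ 2 + p.Z ^ 4 := by positivity
  unfold Pt.D
  rw [← abs_neg ((p.y : ℝ) ^ 2 - (p.x : ℝ) ^ 3), ← h2, abs_mul, abs_of_pos h3]
  have : 0 ≤ (p.x : ℝ) * p.Z ^ 2 + p.Z ^ 4 := by positivity
  gcongr
  linarith

lemma Ok.L2eq : p.L2 a h k₁ k₂ = ((p.x : ℝ) - p.Z ^ 2) -
    (p.Z - p.V a h k₁ k₂) ^ 2 * (2 * p.Z + p.V a h k₁ k₂) / (3 * p.V a h k₁ k₂) := by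
  have hV := o.Vpos f
  unfold Pt.L2
  rw [o.ReqZV f]
  field_simp
  ring

lemma Ok.L3eq : p.L3 a h k₁ k₂ = ((p.x : ℝ) - p.Z ^ 2) * (p.x + p.Z ^ 2 + 2 * p.V a h k₁ k₂ ^ 2) +
    (p.Z - p.V a h k₁ k₂) ^ 3 * (3 * p.Z + p.V a h k₁ k₂) / 3 := by
  unfold Pt.L3
  rw [o.ReqZV f]
  ring

/-- the upper bound of the second form -/
lemma Ok.L2le : |p.L2 a h k₁ k₂| * (p.x : ℝ) ^ 2 ≤ p.D + 64 * p.R h k₂ ^ 2 := by
  have hx := o.x0 f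
  have hV := o.Vpos f
  have hZ := o.Zpos f
  obtain ⟨v1, v2⟩ := o.Vbd f
  obtain ⟨z1, z2⟩ := o.Zbd f
  have h1 := (o.ZV f).1
  have h2 := o.xZ f
  rw [o.L2eq f]
  set V := p.V a h k₁ k₂
  set Z := p.Z
  set e := Real.exp (p.T / 2)
  have he0 : 0 < e := Real.exp_pos _
  have h3 : |(Z - V) ^ 2 * (2 * Z + V) / (3 * V)| ≤ 4 * |Z - V| ^ 2 := by
    rw [abs_div, abs_mul, abs_of_pos (by positivity : 0 < 3 * V), abs_of_pos (by positivity : 0 < 2 * Z + V),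
      abs_pow, div_le_iff₀ (by positivity)]
    have : 2 * Z + V ≤ 4 * (3 * V) := by linarith
    calc |Z - V| ^ 2 * (2 * Z + V) ≤ |Z - V| ^ 2 * (4 * (3 * V)) := by gcongr
      _ = _ := by ring
  have h4 : (|Z - V| * p.x) ^ 2 ≤ (4 * |p.R h k₂|) ^ 2 := pow_le_pow_left₀ (by positivity) h1 2
  calc |(p.x : ℝ) - Z ^ 2 - (Z - V) ^ 2 * (2 * Z + V) / (3 * V)| * (p.x : ℝ) ^ 2 ≤
      (|(p.x : ℝ) - Z ^ 2| + |(Z - V) ^ 2 * (2 * Z + V) / (3 * V)|) * (p.x : ℝ) ^ 2 := by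
        gcongr
        exact abs_sub _ _
    _ ≤ (|(p.x : ℝ) - Z ^ 2| + 4 * |Z - V| ^ 2) * (p.x : ℝ) ^ 2 := by gcongr
    _ = |(p.x : ℝ) - Z ^ 2| * (p.x : ℝ) ^ 2 + 4 * (|Z - V| * p.x) ^ 2 := by ring
    _ ≤ p.D + 4 * (4 * |p.R h k₂|) ^ 2 := by gcongr
    _ = _ := by rw [mul_pow, sq_abs]; ring

/-- the lower bound of the second form -/
lemma Ok.L2ge : p.R h k₂ ^ 2 ≤ 432 * (|p.L2 a h k₁ k₂| * (p.x : ℝ) ^ 2 + p.D) := by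
  have hx := o.x0 f
  have hV := o.Vpos f
  have hZ := o.Zpos f
  obtain ⟨v1, v2⟩ := o.Vbd f
  obtain ⟨z1, z2⟩ := o.Zbd f
  have h1 := (o.ZV f).2
  have h2 := o.xZ f
  have hL := o.L2eq f
  set V := p.V a h k₁ k₂
  set Z := p.Z
  set L := p.L2 a h k₁ k₂
  have h3 : |Z - V| ^ 2 / 3 ≤ |L| + |(p.x : ℝ) - Z ^ 2| := by
    have h4 : |Z - V| ^ 2 / 3 ≤ (Z - V) ^ 2 * (2 * Z + V) / (3 * V) := by
      rw [sq_abs, div_le_div_iff₀ (by norm_num) (by positivity)]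
      have : V * 3 ≤ (2 * Z + V) * 3 := by linarith
      calc (Z - V) ^ 2 * (3 * V) = (Z - V) ^ 2 * (V * 3) := by ring
        _ ≤ (Z - V) ^ 2 * ((2 * Z + V) * 3) := by gcongr
        _ = _ := by ring
    have h5 : (Z - V) ^ 2 * (2 * Z + V) / (3 * V) = (p.x - Z ^ 2) - L := by rw [hL]; ring
    rw [h5] at h4
    refine h4.trans ?_
    have := le_abs_self ((p.x : ℝ) - Z ^ 2)
    have := neg_abs_le L
    linarith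
  calc p.R h k₂ ^ 2 = |p.R h k₂| ^ 2 := (sq_abs _).symm
    _ ≤ (12 * p.x * |Z - V|) ^ 2 := pow_le_pow_left₀ (abs_nonneg _) h1 2
    _ = 432 * ((|Z - V| ^ 2 / 3) * (p.x : ℝ) ^ 2) := by ring
    _ ≤ 432 * ((|L| + |(p.x : ℝ) - Z ^ 2|) * (p.x : ℝ) ^ 2) := by gcongr
    _ = 432 * (|L| * (p.x : ℝ) ^ 2 + |(p.x : ℝ) - Z ^ 2| * (p.x : ℝ) ^ 2) := by ring
    _ ≤ _ := by gcongr

/-- the upper bound of the third form -/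
lemma Ok.L3le : |p.L3 a h k₁ k₂| * Real.exp (p.T / 2) ^ 5 ≤
    13 * p.D * Real.exp (p.T / 2) ^ 3 + 171 * |p.R h k₂| ^ 3 := by
  have hx := o.x0 f
  have hV := o.Vpos f
  have hZ := o.Zpos f
  obtain ⟨v1, v2⟩ := o.Vbd f
  obtain ⟨z1, z2⟩ := o.Zbd f
  have h1 := (o.ZV f).1
  have h2 := o.xZ f
  have he := o.e2 f
  rw [o.L3eq f]
  set V := p.V a h k₁ k₂
  set Z := p.Z
  set e := Real.exp (p.T / 2)
  have he0 : 0 < e := Real.exp_pos _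
  have h3 : (p.x : ℝ) + Z ^ 2 + 2 * V ^ 2 ≤ 13 * e ^ 2 := by
    rw [← he]
    nlinarith
  have h4 : 3 * Z + V ≤ 8 * e := by linarith
  have h5 : |(Z - V) ^ 3 * (3 * Z + V) / 3| ≤ |Z - V| ^ 3 * (8 / 3 * e) := by
    rw [abs_div, abs_mul, abs_of_pos (by positivity : 0 < 3 * Z + V), abs_pow,
      abs_of_pos (by norm_num : (0 : ℝ) < 3)]
    calc |Z - V| ^ 3 * (3 * Z + V) / 3 ≤ |Z - V| ^ 3 * (8 * e) / 3 := by gcongr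
      _ = _ := by ring
  rw [← he] at h1 h2
  have h6 : (|Z - V| * e ^ 2) ^ 3 ≤ (4 * |p.R h k₂|) ^ 3 := pow_le_pow_left₀ (by positivity) h1 3
  rw [← he] at h3 ⊢
  calc |(e ^ 2 - Z ^ 2) * (e ^ 2 + Z ^ 2 + 2 * V ^ 2) + (Z - V) ^ 3 * (3 * Z + V) / 3| * e ^ 5 ≤
      (|(e ^ 2 - Z ^ 2) * (e ^ 2 + Z ^ 2 + 2 * V ^ 2)| + |(Z - V) ^ 3 * (3 * Z + V) / 3|) * e ^ 5 := by
        gcongr
        exact abs_add_le _ _
    _ ≤ (|e ^ 2 - Z ^ 2| * (13 * e ^ 2) + |Z - V| ^ 3 * (8 / 3 * e)) * e ^ 5 := by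
        rw [abs_mul, abs_of_pos (by positivity : 0 < e ^ 2 + Z ^ 2 + 2 * V ^ 2)]
        gcongr
    _ = 13 * (|e ^ 2 - Z ^ 2| * (e ^ 2) ^ 2) * e ^ 3 + 8 / 3 * (|Z - V| * e ^ 2) ^ 3 := by ring
    _ ≤ 13 * p.D * e ^ 3 + 8 / 3 * (4 * |p.R h k₂|) ^ 3 := by gcongr
    _ ≤ _ := by
        have : 0 ≤ |p.R h k₂| ^ 3 := by positivity
        nlinarith

end

end Pool.Agent.Zk43.HO
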