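import Mathlib
import Pool.Agent.Zk43.HO.Pt

/-!
# Integral points of Mordell curves with ordinate near an `S`-unit: small remainders
-/

set_option autoImplicit false

open Finset Filter Topology

namespace Pool.Agent.Zk43.HO

open Pool.Agent.Zk43.HS (Smooth seqSub lim0 alg_q)

variable {S : Finset ℕ} {a h : ℤ} {k₁ k₂ : ℕ} {B δ : ℝ} {p : Pt}

lemma alg_cr (a h : ℤ) (k₁ k₂ : ℕ) (hA : 0 < AA a h k₁ k₂) : IsAlgebraic ℚ (cr a h k₁ k₂) := by
  refine IsAlgebraic.of_pow (n := 3) (by norm_num) ?_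
  unfold cr
  rw [cr_pow hA.le]
  have : AA a h k₁ k₂ = algebraMap ℚ ℝ ((a : ℚ) * k₁ / (h * k₂)) := by
    unfold AA
    simp
  rw [this]
  exact isAlgebraic_algebraMap _

/-- the constant -/
noncomputable def KK (a h : ℤ) (k₁ k₂ : ℕ) (B : ℝ) : ℝ := Real.log (|(h : ℝ)| * k₂ + |(a : ℝ)| * k₁) + 3 * B + 3

lemma KK_pos (f : Fix a h k₁ k₂ B δ) : 1 ≤ KK a h k₁ k₂ B ∧ B ≤ KK a h k₁ k₂ B := by
  have h1 : (1 : ℝ) ≤ |(h : ℝ)| := by
    have : 1 ≤ |h| := Int.one_le_abs f.h0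
    exact_mod_cast this
  have h1' : (1 : ℝ) ≤ |(a : ℝ)| := by
    have : 1 ≤ |a| := Int.one_le_abs f.a0
    exact_mod_cast this
  have h2 : (1 : ℝ) ≤ k₂ := by exact_mod_cast Nat.pos_of_ne_zero f.k2
  have h2' : (1 : ℝ) ≤ k₁ := by exact_mod_cast Nat.pos_of_ne_zero f.k1
  have h7 : (1 : ℝ) ≤ |(h : ℝ)| * k₂ + |(a : ℝ)| * k₁ := by nlinarith
  have h8 : 0 ≤ Real.log (|(h : ℝ)| * k₂ + |(a : ℝ)| * k₁) := Real.log_nonneg h7
  have := f.B0
  unfold KK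
  constructor <;> linarith

section
variable (f : Fix a h k₁ k₂ B δ) (o : Ok S a h k₁ k₂ B p)
include f o

lemma Ok.lw1 : 0 ≤ Real.log p.w₁ ∧ Real.log p.w₁ ≤ KK a h k₁ k₂ B * p.T := by
  have h1 : (1 : ℝ) ≤ p.w₁ := by exact_mod_cast Nat.pos_of_ne_zero o.s1.1
  refine ⟨Real.log_nonneg h1, ?_⟩
  have h2 : Real.log p.w₁ ≤ B * p.T := by
    rw [Real.log_le_iff_le_exp (o.w1 f), ← o.rpow f]
    exact o.b1
  refine h2.trans (mul_le_mul_of_nonneg_right (KK_pos f).2 (by linarith [o.T1 f]))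

lemma Ok.lw2 : 0 ≤ Real.log p.w₂ ∧ Real.log p.w₂ ≤ KK a h k₁ k₂ B * p.T := by
  have h1 : (1 : ℝ) ≤ p.w₂ := by exact_mod_cast Nat.pos_of_ne_zero o.s2.1
  refine ⟨Real.log_nonneg h1, ?_⟩
  have h2 : Real.log p.w₂ ≤ B * p.T := by
    rw [Real.log_le_iff_le_exp (o.w2 f), ← o.rpow f]
    exact o.b2
  refine h2.trans (mul_le_mul_of_nonneg_right (KK_pos f).2 (by linarith [o.T1 f]))

/-- `x - V ^ 2` -/
lemma Ok.xV : |(p.x : ℝ) - p.V a h k₁ k₂ ^ 2| * (p.x : ℝ) ^ 2 ≤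
    p.D + 16 * |p.R h k₂| * (Real.exp (p.T / 2) * p.x) := by
  have hx := o.x0 f
  have hV := o.Vpos f
  have hZ := o.Zpos f
  obtain ⟨v1, v2⟩ := o.Vbd f
  obtain ⟨z1, z2⟩ := o.Zbd f
  have h1 := (o.ZV f).1
  have h2 := o.xZ f
  set V := p.V a h k₁ k₂
  set Z := p.Z
  set e := Real.exp (p.T / 2)
  have he0 : 0 < e := Real.exp_pos _
  have h3 : |(p.x : ℝ) - V ^ 2| ≤ |(p.x : ℝ) - Z ^ 2| + |Z - V| * (4 * e) := by
    have h4 : (p.x : ℝ) - V ^ 2 = (p.x - Z ^ 2) + (Z - V) * (Z + V) := by ring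
    rw [h4]
    refine (abs_add_le _ _).trans (add_le_add le_rfl ?_)
    rw [abs_mul, abs_of_pos (by positivity : 0 < Z + V)]
    gcongr
    linarith
  calc |(p.x : ℝ) - V ^ 2| * (p.x : ℝ) ^ 2 ≤ (|(p.x : ℝ) - Z ^ 2| + |Z - V| * (4 * e)) * (p.x : ℝ) ^ 2 := by gcongr
    _ = |(p.x : ℝ) - Z ^ 2| * (p.x : ℝ) ^ 2 + (|Z - V| * p.x) * (4 * e * p.x) := by ring
    _ ≤ p.D + (4 * |p.R h k₂|) * (4 * e * p.x) := by gcongr
    _ = _ := by ring

end

/-- **the case of a small remainder**: `x = V ^ 2` -/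
theorem caseA (f : Fix a h k₁ k₂ B δ) :
    ∃ t : ℝ, ∀ p : Pt, Ok S a h k₁ k₂ B p → |p.R h k₂| ≤ Real.exp ((1 / 2 - δ) * p.T) →
      p.D ≤ Real.exp ((2 - δ) * p.T) → t ≤ p.T → (p.x : ℝ) = p.V a h k₁ k₂ ^ 2 := by
  by_contra hcon
  push Not at hcon
  have hδ := f.δ0
  have hKK := KK_pos f
  have hl17 : 0 ≤ Real.log 17 := Real.log_nonneg (by norm_num)
  have hl17' : Real.log 17 ≤ 3 := by
    rw [Real.log_le_iff_le_exp (by norm_num)]
    have h1 := Real.exp_one_gt_d9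
    have h2 : Real.exp 3 = Real.exp 1 ^ 3 := by rw [← Real.exp_nat_mul]; norm_num
    rw [h2]
    have h3 : (2.7 : ℝ) ^ 3 ≤ Real.exp 1 ^ 3 := pow_le_pow_left₀ (by norm_num) (by linarith) 3
    linarith [show (2.7 : ℝ) ^ 3 = 19.683 by norm_num]
  set 𝒜 : Set Pt := {p | Ok S a h k₁ k₂ B p ∧ |p.R h k₂| ≤ Real.exp ((1 / 2 - δ) * p.T) ∧
    p.D ≤ Real.exp ((2 - δ) * p.T) ∧ (p.x : ℝ) ≠ p.V a h k₁ k₂ ^ 2 ∧ 2 * Real.log 17 / δ ≤ p.T} with h𝒜
  have hunb : ∀ t : ℝ, ∃ p ∈ 𝒜, t ≤ p.T := by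
    intro t
    obtain ⟨p, h1, h2, h3, h4, h5⟩ := hcon (max t (2 * Real.log 17 / δ))
    exact ⟨p, ⟨h1, h2, h3, h5, (le_max_right _ _).trans h4⟩, (le_max_left _ _).trans h4⟩
  have hApos : 0 < AA a h k₁ k₂ := by
    obtain ⟨p, h1, -⟩ := hunb 0
    exact h1.1.Apos f
  obtain ⟨s, hs⟩ : ∃ s, s = cr a h k₁ k₂ := ⟨_, rfl⟩
  have hs0 : 0 < s := by rw [hs]; exact Real.rpow_pos_of_pos hApos _
  have hxV : ∀ p ∈ 𝒜, |(p.x : ℝ) - p.V a h k₁ k₂ ^ 2| ≤ Real.exp (Real.log 17 - δ * p.T) := by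
    intro p hp
    have h1 := hp.1.xV f
    have h2 := hp.2.1
    have h3 := hp.2.2.1
    have hx := hp.1.x0 f
    have he : (p.x : ℝ) = Real.exp p.T := (hp.1.expT f).symm
    rw [Real.exp_sub, Real.exp_log (by norm_num), le_div_iff₀ (Real.exp_pos _)]
    have h4 : p.D + 16 * |p.R h k₂| * (Real.exp (p.T / 2) * p.x) ≤ 17 * Real.exp ((2 - δ) * p.T) := by
      have h5 : |p.R h k₂| * (Real.exp (p.T / 2) * p.x) ≤ Real.exp ((2 - δ) * p.T) := by
        calc |p.R h k₂| * (Real.exp (p.T / 2) * p.x) ≤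
            Real.exp ((1 / 2 - δ) * p.T) * (Real.exp (p.T / 2) * p.x) := by gcongr
          _ = Real.exp ((2 - δ) * p.T) := by
              rw [he, ← Real.exp_add, ← Real.exp_add]
              congr 1
              ring
      linarith
    have h5 : |(p.x : ℝ) - p.V a h k₁ k₂ ^ 2| * Real.exp (δ * p.T) * (p.x : ℝ) ^ 2 ≤ 17 * (p.x : ℝ) ^ 2 := by
      calc |(p.x : ℝ) - p.V a h k₁ k₂ ^ 2| * Real.exp (δ * p.T) * (p.x : ℝ) ^ 2 =
          (|(p.x : ℝ) - p.V a h k₁ k₂ ^ 2| * (p.x : ℝ) ^ 2) * Real.exp (δ * p.T) := by ring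
        _ ≤ (17 * Real.exp ((2 - δ) * p.T)) * Real.exp (δ * p.T) :=
            mul_le_mul_of_nonneg_right (h1.trans h4) (Real.exp_pos _).le
        _ = 17 * (p.x : ℝ) ^ 2 := by
            rw [mul_assoc, ← Real.exp_add, he, ← Real.exp_nat_mul]
            congr 2
            push_cast
            ring
    exact le_of_mul_le_mul_right h5 (by positivity)
  obtain ⟨c, hc0, hc⟩ := seqSub (n := 2) (by norm_num) S !![1, 0; -s ^ 2, 1]
    (by
      intro i j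
      fin_cases i <;> fin_cases j
      · exact isAlgebraic_one
      · exact isAlgebraic_zero
      · rw [hs]
        exact ((alg_cr a h k₁ k₂ hApos).pow 2).neg
      · exact isAlgebraic_one)
    (by
      intro i j hij
      fin_cases i <;> fin_cases j <;> simp_all)
    (by intro i; fin_cases i <;> simp)
    𝒜 Pt.T (fun p => ![(p.w₁ : ℤ) ^ 2, (p.w₂ : ℤ) ^ 2 * p.x]) (fun p => ![p.w₁ ^ 2, p.w₂ ^ 2])
    (fun p => ![2 * Real.log p.w₁, 2 * Real.log p.w₂ + (Real.log 17 - δ * p.T)])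
    (3 * KK a h k₁ k₂ B + 3 + δ) (δ / 2) (by linarith) (by linarith) hunb
    (fun p hp => hp.1.T1 f)
    (fun p hp h0 => by
      have h1 := congrFun h0 0
      simp only [Matrix.cons_val_zero, Pi.zero_apply] at h1
      have h2 := hp.1.s1.1
      have h3 : (p.w₁ : ℤ) ≠ 0 := by exact_mod_cast h2
      exact pow_ne_zero 2 h3 h1)
    (fun p hp l => by
      fin_cases l
      · exact hp.1.s1.pow 2
      · exact hp.1.s2.pow 2)
    (fun p hp l => by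
      have hT := hp.1.T1 f
      obtain ⟨h1, h2⟩ := hp.1.lw1 f
      obtain ⟨h3, h4⟩ := hp.1.lw2 f
      have g1 := hp.1.w1 f
      have g2 := hp.1.w2 f
      have hδT : 0 ≤ δ * p.T := mul_nonneg hδ.le (by linarith)
      fin_cases l
      · show (((p.w₁ ^ 2 : ℕ)) : ℝ) ≤ _
        push_cast
        rw [← Real.log_le_iff_le_exp (by positivity), Real.log_pow]
        push_cast
        nlinarith
      · show (((p.w₂ ^ 2 : ℕ)) : ℝ) ≤ _
        push_cast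
        rw [← Real.log_le_iff_le_exp (by positivity), Real.log_pow]
        push_cast
        nlinarith)
    (fun p hp l => by
      fin_cases l
      · show (((p.w₁ ^ 2 : ℕ)) : ℤ) ∣ (p.w₁ : ℤ) ^ 2
        push_cast
        exact dvd_rfl
      · show (((p.w₂ ^ 2 : ℕ)) : ℤ) ∣ (p.w₂ : ℤ) ^ 2 * p.x
        push_cast
        exact Dvd.intro _ rfl)
    (fun p hp l => by
      have hT := hp.1.T1 f
      obtain ⟨h1, h2⟩ := hp.1.lw1 f
      obtain ⟨h3, h4⟩ := hp.1.lw2 f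
      have hδT : 0 ≤ δ * p.T := mul_nonneg hδ.le (by linarith)
      have e8 : (3 * KK a h k₁ k₂ B + 3 + δ) * p.T = 3 * (KK a h k₁ k₂ B * p.T) + 3 * p.T + δ * p.T := by ring
      rw [e8]
      fin_cases l
      · show |2 * Real.log p.w₁| ≤ _
        rw [abs_le]
        constructor <;> linarith
      · show |2 * Real.log p.w₂ + (Real.log 17 - δ * p.T)| ≤ _
        rw [abs_le]
        constructor <;> linarith)
    (fun p hp l => by
      have g1 := hp.1.w1 f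
      have g2 := hp.1.w2 f
      fin_cases l
      · show |∑ j, (!![1, 0; -s ^ 2, 1] : Matrix (Fin 2) (Fin 2) ℝ) 0 j *
          ((![(p.w₁ : ℤ) ^ 2, (p.w₂ : ℤ) ^ 2 * p.x] j : ℤ) : ℝ)| ≤ Real.exp (2 * Real.log p.w₁)
        simp [Fin.sum_univ_two]
        rw [mul_comm, Real.exp_mul, Real.exp_log g1]
        norm_cast
      · show |∑ j, (!![1, 0; -s ^ 2, 1] : Matrix (Fin 2) (Fin 2) ℝ) 1 j *
          ((![(p.w₁ : ℤ) ^ 2, (p.w₂ : ℤ) ^ 2 * p.x] j : ℤ) : ℝ)| ≤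
            Real.exp (2 * Real.log p.w₂ + (Real.log 17 - δ * p.T))
        have h4 : ∑ j, (!![1, 0; -s ^ 2, 1] : Matrix (Fin 2) (Fin 2) ℝ) 1 j *
          ((![(p.w₁ : ℤ) ^ 2, (p.w₂ : ℤ) ^ 2 * p.x] j : ℤ) : ℝ) =
            (p.w₂ : ℝ) ^ 2 * ((p.x : ℝ) - p.V a h k₁ k₂ ^ 2) := by
          simp [Fin.sum_univ_two]
          unfold Pt.V Pt.W
          rw [← hs]
          field_simp
          ring
        rw [h4, abs_mul, abs_of_pos (pow_pos g2 2), Real.exp_add, mul_comm 2,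
          Real.exp_mul, Real.exp_log g2]
        have h5 : (p.w₂ : ℝ) ^ (2 : ℝ) = (p.w₂ : ℝ) ^ 2 := by norm_cast
        rw [h5]
        exact mul_le_mul_of_nonneg_left (hxV p hp) (by positivity))
    (fun p hp => by
      have g1 := hp.1.w1 f
      have g2 := hp.1.w2 f
      have g3 := hp.2.2.2.2
      rw [div_le_iff₀ hδ] at g3
      rw [Fin.sum_univ_two, Fin.sum_univ_two]
      show 2 * Real.log p.w₁ + (2 * Real.log p.w₂ + (Real.log 17 - δ * p.T)) + δ / 2 * p.T ≤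
        Real.log ((p.w₁ ^ 2 : ℕ) : ℝ) + Real.log ((p.w₂ ^ 2 : ℕ) : ℝ)
      push_cast
      rw [Real.log_pow, Real.log_pow]
      push_cast
      linarith)
  -- the relation
  have hc1 : c 1 ≠ 0 := by
    intro h1
    obtain ⟨p, hp, -, hrel⟩ := hc 0
    rw [Fin.sum_univ_two, h1, zero_mul, add_zero] at hrel
    simp only [Matrix.cons_val_zero] at hrel
    have h3 : (p.w₁ : ℤ) ≠ 0 := by exact_mod_cast hp.1.s1.1
    have h4 := (mul_eq_zero.1 hrel).resolve_right (pow_ne_zero 2 h3)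
    apply hc0
    funext i
    fin_cases i
    · exact h4
    · exact h1
  have hc1R : (c 1 : ℝ) ≠ 0 := by exact_mod_cast hc1
  obtain ⟨κ, hκ⟩ : ∃ κ : ℝ, κ = -((c 0 : ℝ) / c 1) / s ^ 2 := ⟨_, rfl⟩
  have hxκ : ∀ p ∈ 𝒜, ∑ l, c l * (![(p.w₁ : ℤ) ^ 2, (p.w₂ : ℤ) ^ 2 * p.x]) l = 0 →
      (p.x : ℝ) = κ * p.V a h k₁ k₂ ^ 2 := by
    intro p hp hrel
    have g1 := hp.1.w1 f
    have g2 := hp.1.w2 f
    rw [Fin.sum_univ_two] at hrel
    simp only [Matrix.cons_val_zero, Matrix.cons_val_one] at hrel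
    have h1 : (c 0 : ℝ) * (p.w₁ : ℝ) ^ 2 + c 1 * ((p.w₂ : ℝ) ^ 2 * p.x) = 0 := by exact_mod_cast hrel
    unfold Pt.V Pt.W
    rw [hκ, ← hs]
    field_simp
    linarith
  have hκ1 : κ - 1 = 0 := by
    refine lim0 (ρ := δ) hδ (C := 17) fun t => ?_
    obtain ⟨p, hp, ht, hrel⟩ := hc t
    have h1 := hxκ p hp hrel
    have h2 := hxV p hp
    have hV := hp.1.Vpos f
    have hV1 : 1 ≤ p.V a h k₁ k₂ := by
      have := (hp.1.Vbd f).1
      have := hp.1.e4 f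
      linarith
    set V := p.V a h k₁ k₂
    refine ⟨p.T, ht, -((p.x - V ^ 2) / V ^ 2), ?_, ?_⟩
    · rw [abs_neg, abs_div, abs_of_pos (pow_pos hV 2), div_le_iff₀ (pow_pos hV 2)]
      rw [Real.exp_sub, Real.exp_log (by norm_num), div_eq_mul_inv, ← Real.exp_neg] at h2
      refine h2.trans (le_mul_of_one_le_right (by positivity) (one_le_pow₀ hV1))
    · rw [h1]
      field_simp
      ring
  obtain ⟨p, hp, -, hrel⟩ := hc 0
  have h1 := hxκ p hp hrel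
  have h2 : κ = 1 := by linarith
  rw [h2, one_mul] at h1
  exact hp.2.2.2.1 h1

/-- **the exact case** -/
lemma exact (f : Fix a h k₁ k₂ B δ) (o : Ok S a h k₁ k₂ B p) (hx : (p.x : ℝ) = p.V a h k₁ k₂ ^ 2) :
    Real.exp (3 / 2 * p.T) ≤ p.D := by
  have hV := o.Vpos f
  have hVc := o.Vcu f
  have hx0 := o.x0 f
  -- `V` is rational
  have hW : (p.V a h k₁ k₂) ^ 3 = (((a : ℚ) * k₁ / (h * k₂) * ((p.w₁ : ℚ) / p.w₂) ^ 3 : ℚ) : ℝ) := by
    unfold Pt.V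
    rw [mul_pow, o.cr3 f]
    unfold AA Pt.W
    push_cast
    ring
  obtain ⟨q, hq⟩ : ∃ q : ℚ, (p.V a h k₁ k₂) ^ 3 = q := ⟨_, hW⟩
  obtain ⟨v, hv⟩ : ∃ v : ℚ, p.V a h k₁ k₂ = v := by
    refine ⟨q / p.x, ?_⟩
    push_cast
    rw [← hq, hx]
    field_simp
  have hv2 : v ^ 2 = p.x := by
    have : (v : ℝ) ^ 2 = ((p.x : ℤ) : ℝ) := by rw [← hv, ← hx]
    exact_mod_cast this
  have hint : IsIntegral ℤ v := by
    refine IsIntegral.of_pow (n := 2) (by norm_num) ?_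
    rw [hv2]
    exact isIntegral_algebraMap (R := ℤ) (A := ℚ) (x := p.x)
  obtain ⟨z, hz⟩ := IsIntegrallyClosed.isIntegral_iff.1 hint
  have hz' : (z : ℝ) = p.V a h k₁ k₂ := by
    rw [hv]
    have : (z : ℚ) = v := hz
    exact_mod_cast this
  -- `R` is an integer
  have hR : p.R h k₂ = ((p.y - z ^ 3 : ℤ) : ℝ) := by
    push_cast
    rw [hz', hVc]
    ring
  have hxz : p.x = z ^ 2 := by
    have : ((p.x : ℤ) : ℝ) = ((z ^ 2 : ℤ) : ℝ) := by push_cast; rw [hz']; exact hx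
    exact_mod_cast this
  have hR0 : p.y - z ^ 3 ≠ 0 := by
    intro h0
    apply o.ne
    have : p.y = z ^ 3 := by linarith
    rw [this, hxz]
    ring
  have hR1 : (1 : ℝ) ≤ |p.R h k₂| := by
    rw [hR]
    have : 1 ≤ |p.y - z ^ 3| := Int.one_le_abs hR0
    exact_mod_cast this
  have hRb := o.Rbd f
  have hy := o.ybd f
  have hD : p.D = |p.R h k₂| * |2 * p.V a h k₁ k₂ ^ 3 + p.R h k₂| := by
    unfold Pt.D
    rw [← abs_mul]
    congr 1
    have h1 : (p.y : ℝ) = p.V a h k₁ k₂ ^ 3 + p.R h k₂ := by linarith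
    have h2 : (p.x : ℝ) ^ 3 = (p.V a h k₁ k₂ ^ 3) ^ 2 := by rw [hx]; ring
    rw [h1, h2]
    ring
  have hE : Real.exp (3 / 2 * p.T) = Real.exp (p.T / 2) ^ 3 := by
    rw [← Real.exp_nat_mul]
    congr 1
    push_cast
    ring
  have hE0 : 0 < Real.exp (p.T / 2) ^ 3 := by positivity
  have h3 : Real.exp (p.T / 2) ^ 3 ≤ |2 * p.V a h k₁ k₂ ^ 3 + p.R h k₂| := by
    refine le_trans ?_ (le_abs_self _)
    have := abs_le.1 hRb
    nlinarith [this.1, this.2, hy.1, hy.2]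
  rw [hD, hE]
  calc Real.exp (p.T / 2) ^ 3 = 1 * Real.exp (p.T / 2) ^ 3 := (one_mul _).symm
    _ ≤ _ := by gcongr

end Pool.Agent.Zk43.HO
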