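import Mathlib
import Pool.Agent.Zk43.HO.CaseA

/-!
# Integral points of Mordell curves with ordinate near an `S`-unit: large remainders
-/

set_option autoImplicit false

open Finset Filter Topology

namespace Pool.Agent.Zk43.HO

open Pool.Agent.Zk43.HS (Smooth seqSub lim0 alg_q et et_pos et_le)

variable {S : Finset ℕ} {a h : ℤ} {k₁ k₂ : ℕ} {B δ : ℝ} {p : Pt}

/-- the conditions of the case -/
structure Big (h : ℤ) (k₂ : ℕ) (δ : ℝ) (p : Pt) : Prop where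
  c1 : |(p.r : ℝ)| * |p.R h k₂| ^ 5 ≤ Real.exp ((9 / 2 - δ) * p.T)
  c2 : |(p.r : ℝ)| * p.R h k₂ ^ 2 * p.D ≤ Real.exp ((3 - δ) * p.T)
  c3 : p.D ≤ Real.exp (-(δ * p.T)) * p.R h k₂ ^ 2
  c4 : |p.R h k₂| ≤ Real.exp ((3 / 4 - δ) * p.T)

/-- the matrix of the linear forms -/
noncomputable def MM (h : ℤ) (k₂ : ℕ) (s : ℝ) : Matrix (Fin 4) (Fin 4) ℝ :=
  !![1, 0, 0, 0; 0, 1, 0, 0; -s ^ 2, -(2 / 3) / (s * (h * k₂)), 1, 0;
    -3 * s ^ 4, -(8 / 3) * s / (h * k₂), 2 * s ^ 2, 1]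

def XX (p : Pt) : Fin 4 → ℤ :=
  ![(p.w₁ : ℤ) ^ 4, (p.w₁ : ℤ) * p.n * p.r, (p.w₁ : ℤ) ^ 2 * (p.w₂ : ℤ) ^ 2 * p.x, (p.w₂ : ℤ) ^ 4 * p.x ^ 2]

def DD (p : Pt) : Fin 4 → ℕ := ![p.w₁ ^ 4, p.w₁ * p.n, p.w₁ ^ 2 * p.w₂ ^ 2, p.w₂ ^ 4]

noncomputable def EE (h : ℤ) (k₂ : ℕ) (δ : ℝ) (p : Pt) : Fin 4 → ℝ :=
  ![4 * Real.log p.w₁, Real.log p.w₁ + Real.log p.n + Real.log |(p.r : ℝ)|,
    2 * Real.log p.w₁ + 2 * Real.log p.w₂ + (Real.log 65 + 2 * Real.log |p.R h k₂| - 2 * p.T),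
    4 * Real.log p.w₂ + (Real.log 184 - δ * p.T - Real.log |(p.r : ℝ)| - 2 * Real.log |p.R h k₂| + 2 * p.T)]

lemma alg_MM (a h : ℤ) (k₁ k₂ : ℕ) (hA : 0 < AA a h k₁ k₂) (i j : Fin 4) :
    IsAlgebraic ℚ (MM h k₂ (cr a h k₁ k₂) i j) := by
  have hs := alg_cr a h k₁ k₂ hA
  have hq : IsAlgebraic ℚ ((h : ℝ) * k₂) := by
    have := alg_q (h * k₂)
    push_cast at this
    exact this
  have h23 : IsAlgebraic ℚ (-(2 / 3) : ℝ) := by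
    have := alg_q (-(2 / 3))
    push_cast at this
    exact this
  have h83 : IsAlgebraic ℚ (-(8 / 3) : ℝ) := by
    have := alg_q (-(8 / 3))
    push_cast at this
    exact this
  have h3 : IsAlgebraic ℚ (-3 : ℝ) := by
    have := alg_q (-3)
    push_cast at this
    exact this
  have h2 : IsAlgebraic ℚ (2 : ℝ) := by
    have := alg_q 2
    push_cast at this
    exact this
  fin_cases i <;> fin_cases j
  · exact isAlgebraic_one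
  · exact isAlgebraic_zero
  · exact isAlgebraic_zero
  · exact isAlgebraic_zero
  · exact isAlgebraic_zero
  · exact isAlgebraic_one
  · exact isAlgebraic_zero
  · exact isAlgebraic_zero
  · exact (hs.pow 2).neg
  · show IsAlgebraic ℚ (-(2 / 3) / (cr a h k₁ k₂ * (h * k₂)))
    rw [div_eq_mul_inv]
    exact h23.mul (hs.mul hq).inv
  · exact isAlgebraic_one
  · exact isAlgebraic_zero
  · exact h3.mul (hs.pow 4)
  · show IsAlgebraic ℚ (-(8 / 3) * cr a h k₁ k₂ / (h * k₂))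
    rw [div_eq_mul_inv]
    exact (h83.mul hs).mul hq.inv
  · exact h2.mul (hs.pow 2)
  · exact isAlgebraic_one

section
variable (f : Fix a h k₁ k₂ B δ) (o : Ok S a h k₁ k₂ B p)
include f o

lemma Ok.form2 : ∑ j, MM h k₂ (cr a h k₁ k₂) 2 j * (XX p j : ℝ) =
    (p.w₁ : ℝ) ^ 2 * (p.w₂ : ℝ) ^ 2 * p.L2 a h k₁ k₂ := by
  have g1 := o.w1 f
  have g2 := o.w2 f
  have hs : 0 < cr a h k₁ k₂ := o.crpos f
  have hk0 : (k₂ : ℝ) ≠ 0 := by exact_mod_cast f.k2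
  have hh0 : (h : ℝ) ≠ 0 := by exact_mod_cast f.h0
  rw [Fin.sum_univ_four]
  show -cr a h k₁ k₂ ^ 2 * (((p.w₁ : ℤ) ^ 4 : ℤ) : ℝ) +
    -(2 / 3) / (cr a h k₁ k₂ * (h * k₂)) * (((p.w₁ : ℤ) * p.n * p.r : ℤ) : ℝ) +
    1 * (((p.w₁ : ℤ) ^ 2 * (p.w₂ : ℤ) ^ 2 * p.x : ℤ) : ℝ) + 0 * (((p.w₂ : ℤ) ^ 4 * p.x ^ 2 : ℤ) : ℝ) = _
  unfold Pt.L2 Pt.V Pt.W Pt.R
  push_cast
  field_simp
  ring

lemma Ok.form3 : ∑ j, MM h k₂ (cr a h k₁ k₂) 3 j * (XX p j : ℝ) = (p.w₂ : ℝ) ^ 4 * p.L3 a h k₁ k₂ := by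
  have g1 := o.w1 f
  have g2 := o.w2 f
  have hs : 0 < cr a h k₁ k₂ := o.crpos f
  have hk0 : (k₂ : ℝ) ≠ 0 := by exact_mod_cast f.k2
  have hh0 : (h : ℝ) ≠ 0 := by exact_mod_cast f.h0
  rw [Fin.sum_univ_four]
  show -3 * cr a h k₁ k₂ ^ 4 * (((p.w₁ : ℤ) ^ 4 : ℤ) : ℝ) +
    -(8 / 3) * cr a h k₁ k₂ / (h * k₂) * (((p.w₁ : ℤ) * p.n * p.r : ℤ) : ℝ) +
    2 * cr a h k₁ k₂ ^ 2 * (((p.w₁ : ℤ) ^ 2 * (p.w₂ : ℤ) ^ 2 * p.x : ℤ) : ℝ) +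
    1 * (((p.w₂ : ℤ) ^ 4 * p.x ^ 2 : ℤ) : ℝ) = _
  unfold Pt.L3 Pt.V Pt.W Pt.R
  push_cast
  field_simp
  ring

lemma Ok.D1 : 1 ≤ p.D := by
  unfold Pt.D
  have h1 : 1 ≤ |p.y ^ 2 - p.x ^ 3| := Int.one_le_abs (sub_ne_zero.2 o.ne)
  exact_mod_cast h1

lemma Ok.Rne (g : Big h k₂ δ p) : p.R h k₂ ≠ 0 := by
  intro h0
  have h1 := g.c3
  rw [h0] at h1
  have h2 := o.D1 f
  norm_num at h1
  linarith

lemma Ok.rne (g : Big h k₂ δ p) : p.r ≠ 0 := by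
  intro h0
  apply o.Rne f g
  unfold Pt.R
  rw [h0]
  simp

/-- the bounds for the logarithms -/
lemma Ok.lnr (g : Big h k₂ δ p) : 0 ≤ Real.log p.n ∧ 0 ≤ Real.log |(p.r : ℝ)| ∧
    Real.log p.n + Real.log |(p.r : ℝ)| ≤ KK a h k₁ k₂ B * p.T := by
  have hr := o.rne f g
  have hr1 : (1 : ℝ) ≤ |(p.r : ℝ)| := by
    have : 1 ≤ |p.r| := Int.one_le_abs hr
    exact_mod_cast this
  have hn := o.n0 f
  refine ⟨Real.log_nonneg hn, Real.log_nonneg hr1, ?_⟩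
  rw [← Real.log_mul (by linarith) (by linarith), Real.log_le_iff_le_exp (by positivity)]
  have h1 : (1 : ℝ) ≤ |(h : ℝ)| := by
    have : 1 ≤ |h| := Int.one_le_abs f.h0
    exact_mod_cast this
  have h1' : (1 : ℝ) ≤ |(a : ℝ)| := by
    have : 1 ≤ |a| := Int.one_le_abs f.a0
    exact_mod_cast this
  have h2 : (1 : ℝ) ≤ k₂ := by exact_mod_cast Nat.pos_of_ne_zero f.k2
  have h2' : (1 : ℝ) ≤ k₁ := by exact_mod_cast Nat.pos_of_ne_zero f.k1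
  have h3 : (p.n : ℝ) * |(p.r : ℝ)| = |(h : ℝ) * k₂ * (p.w₂ : ℝ) ^ 3 * p.y - a * k₁ * (p.w₁ : ℝ) ^ 3| := by
    have h4 : (h : ℝ) * k₂ * (p.w₂ : ℝ) ^ 3 * p.y - a * k₁ * (p.w₁ : ℝ) ^ 3 = p.n * p.r := by
      linarith [o.eqR f]
    rw [h4, abs_mul, abs_of_nonneg (by linarith [o.n0 f] : (0 : ℝ) ≤ p.n)]
  have hx := o.x0 f
  have hx4 := o.xR f
  have hB := f.B0
  have hwB : ∀ w : ℕ, 0 < w → (w : ℝ) ≤ (p.x : ℝ) ^ B → (w : ℝ) ^ 3 ≤ (p.x : ℝ) ^ (3 * B) := by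
    intro w _ hw
    calc (w : ℝ) ^ 3 ≤ ((p.x : ℝ) ^ B) ^ 3 := pow_le_pow_left₀ (Nat.cast_nonneg _) hw 3
      _ = (p.x : ℝ) ^ (3 * B) := by rw [← Real.rpow_natCast, ← Real.rpow_mul hx.le]; congr 1; push_cast; ring
  have h5 : (p.w₁ : ℝ) ^ 3 ≤ (p.x : ℝ) ^ (3 * B + 3) := by
    refine (hwB _ (Nat.pos_of_ne_zero o.s1.1) o.b1).trans ?_
    exact Real.rpow_le_rpow_of_exponent_le (by linarith) (by linarith)
  have hy : (p.y : ℝ) ≤ (p.x : ℝ) ^ (3 : ℝ) := by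
    have h6 := (o.ybd f).2
    have h7 : Real.exp (p.T / 2) ^ 3 * 2 ≤ (p.x : ℝ) ^ (3 : ℝ) := by
      have h8 : (p.x : ℝ) ^ (3 : ℝ) = (Real.exp (p.T / 2) ^ 3) ^ 2 := by
        rw [show (3 : ℝ) = ((3 : ℕ) : ℝ) by norm_num, Real.rpow_natCast, ← o.e2 f]
        ring
      have h9 : (4 : ℝ) ^ 3 ≤ Real.exp (p.T / 2) ^ 3 := pow_le_pow_left₀ (by norm_num) (o.e4 f) 3
      rw [h8]
      nlinarith
    have : 0 < Real.exp (p.T / 2) ^ 3 := by positivity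
    linarith
  have h6 : (p.w₂ : ℝ) ^ 3 * p.y ≤ (p.x : ℝ) ^ (3 * B + 3) := by
    rw [Real.rpow_add hx]
    have := (o.y0 f).le
    have h7 := hwB _ (Nat.pos_of_ne_zero o.s2.1) o.b2
    gcongr
  have h7 : (1 : ℝ) ≤ |(h : ℝ)| * k₂ + |(a : ℝ)| * k₁ := by nlinarith
  have h8 : 0 ≤ Real.log (|(h : ℝ)| * k₂ + |(a : ℝ)| * k₁) := Real.log_nonneg h7
  rw [h3]
  calc |(h : ℝ) * k₂ * (p.w₂ : ℝ) ^ 3 * p.y - a * k₁ * (p.w₁ : ℝ) ^ 3| ≤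
      |(h : ℝ) * k₂ * (p.w₂ : ℝ) ^ 3 * p.y| + |a * k₁ * (p.w₁ : ℝ) ^ 3| := abs_sub _ _
    _ = |(h : ℝ)| * k₂ * ((p.w₂ : ℝ) ^ 3 * p.y) + |(a : ℝ)| * k₁ * (p.w₁ : ℝ) ^ 3 := by
        simp only [abs_mul, abs_pow, Nat.abs_cast, abs_of_pos (o.y0 f)]
        ring
    _ ≤ |(h : ℝ)| * k₂ * (p.x : ℝ) ^ (3 * B + 3) + |(a : ℝ)| * k₁ * (p.x : ℝ) ^ (3 * B + 3) := by gcongr
    _ = (|(h : ℝ)| * k₂ + |(a : ℝ)| * k₁) * Real.exp ((3 * B + 3) * p.T) := by rw [o.rpow f]; ring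
    _ = Real.exp (Real.log (|(h : ℝ)| * k₂ + |(a : ℝ)| * k₁)) * Real.exp ((3 * B + 3) * p.T) := by
        rw [Real.exp_log (by linarith)]
    _ ≤ Real.exp (Real.log (|(h : ℝ)| * k₂ + |(a : ℝ)| * k₁) * p.T) * Real.exp ((3 * B + 3) * p.T) := by
        gcongr
        exact le_mul_of_one_le_right h8 (o.T1 f)
    _ = _ := by
        rw [← Real.exp_add]
        congr 1
        unfold KK
        ring

lemma Ok.lR (g : Big h k₂ δ p) : |Real.log (|p.R h k₂|)| ≤ 4 * KK a h k₁ k₂ B * p.T := by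
  have hR := o.Rne f g
  have hR0 : 0 < |p.R h k₂| := abs_pos.2 hR
  have hT := o.T1 f
  have hK := (KK_pos f).1
  have hKT : KK a h k₁ k₂ B ≤ KK a h k₁ k₂ B * p.T := le_mul_of_one_le_right (by linarith) hT
  have hKT2 : p.T ≤ KK a h k₁ k₂ B * p.T := le_mul_of_one_le_left (by linarith) hK
  obtain ⟨l1, l2, l3⟩ := o.lnr f g
  obtain ⟨m1, m2⟩ := o.lw2 f
  have h1 : (1 : ℝ) ≤ |(h : ℝ)| := by
    have : 1 ≤ |h| := Int.one_le_abs f.h0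
    exact_mod_cast this
  have h2 : (1 : ℝ) ≤ k₂ := by exact_mod_cast Nat.pos_of_ne_zero f.k2
  have haa : (0 : ℝ) ≤ |(a : ℝ)| * k₁ := by positivity
  have hB := f.B0
  have hhk1 : (1 : ℝ) ≤ |(h : ℝ)| * k₂ := by nlinarith
  rw [abs_le]
  constructor
  · have hr : (0 : ℝ) < |(p.r : ℝ)| := abs_pos.2 (by exact_mod_cast o.rne f g)
    have hn := o.n0 f
    have hw := o.w2 f
    have h3 : |p.R h k₂| = p.n * |(p.r : ℝ)| / (|(h : ℝ)| * k₂ * (p.w₂ : ℝ) ^ 3) := by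
      unfold Pt.R
      rw [abs_div, abs_mul, abs_mul, abs_mul, Nat.abs_cast, Nat.abs_cast, abs_of_pos (pow_pos hw 3)]
    rw [h3, Real.log_div (by positivity) (by positivity), Real.log_mul (by positivity) (by positivity),
      Real.log_mul (by positivity) (by positivity), Real.log_pow]
    have h4 : Real.log (|(h : ℝ)| * k₂) ≤ KK a h k₁ k₂ B := by
      unfold KK
      have : Real.log (|(h : ℝ)| * k₂) ≤ Real.log (|(h : ℝ)| * k₂ + |(a : ℝ)| * k₁) :=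
        Real.log_le_log (by linarith) (by linarith)
      linarith
    push_cast
    linarith
  · have h3 : Real.log |p.R h k₂| ≤ 3 / 4 * p.T := by
      rw [Real.log_le_iff_le_exp hR0, ← o.rpow f]
      exact o.R4
    linarith

/-- the bound for the third form -/
lemma Ok.L3r (g : Big h k₂ δ p) : |p.L3 a h k₁ k₂| * (|(p.r : ℝ)| * |p.R h k₂| ^ 2) ≤
    184 * Real.exp (-(δ * p.T)) * Real.exp (2 * p.T) := by
  have h1 := o.L3le f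
  have h2 := g.c1
  have h3 := g.c2
  rw [← sq_abs (p.R h k₂)] at h3
  set e := Real.exp (p.T / 2) with he
  have he0 : 0 < e := Real.exp_pos _
  have h4 : (|p.L3 a h k₁ k₂| * (|(p.r : ℝ)| * |p.R h k₂| ^ 2)) * e ^ 5 ≤
      (184 * Real.exp (-(δ * p.T)) * Real.exp (2 * p.T)) * e ^ 5 := by
    calc (|p.L3 a h k₁ k₂| * (|(p.r : ℝ)| * |p.R h k₂| ^ 2)) * e ^ 5 =
        (|p.L3 a h k₁ k₂| * e ^ 5) * (|(p.r : ℝ)| * |p.R h k₂| ^ 2) := by ring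
      _ ≤ (13 * p.D * e ^ 3 + 171 * |p.R h k₂| ^ 3) * (|(p.r : ℝ)| * |p.R h k₂| ^ 2) := by gcongr
      _ = 13 * (|(p.r : ℝ)| * |p.R h k₂| ^ 2 * p.D) * e ^ 3 + 171 * (|(p.r : ℝ)| * |p.R h k₂| ^ 5) := by ring
      _ ≤ 13 * Real.exp ((3 - δ) * p.T) * e ^ 3 + 171 * Real.exp ((9 / 2 - δ) * p.T) := by gcongr
      _ = (184 * Real.exp (-(δ * p.T)) * Real.exp (2 * p.T)) * e ^ 5 := by
          have e1 : Real.exp ((3 - δ) * p.T) * e ^ 3 = Real.exp ((9 / 2 - δ) * p.T) := by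
            rw [he, ← Real.exp_nat_mul, ← Real.exp_add]
            congr 1
            push_cast
            ring
          have e2 : Real.exp (-(δ * p.T)) * Real.exp (2 * p.T) * e ^ 5 = Real.exp ((9 / 2 - δ) * p.T) := by
            rw [he, ← Real.exp_nat_mul, ← Real.exp_add, ← Real.exp_add]
            congr 1
            push_cast
            ring
          calc 13 * Real.exp ((3 - δ) * p.T) * e ^ 3 + 171 * Real.exp ((9 / 2 - δ) * p.T) =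
              13 * (Real.exp ((3 - δ) * p.T) * e ^ 3) + 171 * Real.exp ((9 / 2 - δ) * p.T) := by ring
            _ = 184 * Real.exp ((9 / 2 - δ) * p.T) := by rw [e1]; ring
            _ = 184 * (Real.exp (-(δ * p.T)) * Real.exp (2 * p.T) * e ^ 5) := by rw [e2]
            _ = _ := by ring
  exact le_of_mul_le_mul_right h4 (by positivity)

end

end Pool.Agent.Zk43.HO
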