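import Mathlib
import Pool.Agent.Zk43.HO.CaseC

/-!
# Integral points of Mordell curves with ordinate near an `S`-unit: the end of the proof
-/

set_option autoImplicit false

open Finset Filter Topology

namespace Pool.Agent.Zk43.HO

open Pool.Agent.Zk43.HS (Smooth seqSub lim0 alg_q et et_pos et_le integral)

variable {S : Finset ℕ} {a h : ℤ} {k₁ k₂ : ℕ} {B δ : ℝ} {p : Pt}

section
variable (f : Fix a h k₁ k₂ B δ) (o : Ok S a h k₁ k₂ B p)
include f o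

/-- the size of the terms -/
lemma Ok.sizes (g : Big h k₂ δ p) (hTδ : 864 ≤ Real.exp (δ * p.T)) :
    |p.R h k₂ / p.V a h k₁ k₂ ^ 3| ≤ 8 * Real.exp (-(et δ * p.T)) ∧
    |p.L2 a h k₁ k₂ / p.V a h k₁ k₂ ^ 2| ≤ 65 * Real.exp (-(et δ * p.T)) ∧
    |p.L3 a h k₁ k₂ / p.V a h k₁ k₂ ^ 4| ≤ 2944 * Real.exp (-(et δ * p.T)) ∧
    |p.V a h k₁ k₂ * p.L2 a h k₁ k₂ / p.R h k₂| ≤ 130 * Real.exp (-(et δ * p.T)) ∧
    |p.L3 a h k₁ k₂ / (p.V a h k₁ k₂ * p.R h k₂)| ≤ 368 * Real.exp (-(et δ * p.T)) ∧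
    0 < |p.L2 a h k₁ k₂| ∧
    |p.L3 a h k₁ k₂ / (p.V a h k₁ k₂ ^ 2 * p.L2 a h k₁ k₂)| ≤ 635904 * Real.exp (-(et δ * p.T)) := by
  have hx := o.x0 f
  have hT := o.T1 f
  have hV := o.Vpos f
  obtain ⟨v1, v2⟩ := o.Vbd f
  have he4 := o.e4 f
  have hxe := o.e2 f
  have hL2 := o.L2le f
  have hL2g := o.L2ge f
  have hL3 := o.L3le f
  have hD := o.D0 f
  have hR := o.Rne f g
  have hR0 : 0 < |p.R h k₂| := abs_pos.2 hR
  have hc3 := g.c3
  have hR4 := o.R4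
  have hδ := f.δ0
  have hδT : 0 ≤ δ * p.T := mul_nonneg f.δ0.le (by linarith)
  have he1 : et δ * p.T ≤ 1 / 20 * p.T := mul_le_mul_of_nonneg_right (et_le δ).1 (by linarith)
  have he2 : et δ * p.T ≤ δ / 20 * p.T := mul_le_mul_of_nonneg_right (et_le δ).2 (by linarith)
  have he3 : 0 ≤ et δ * p.T := mul_nonneg (et_pos f.δ0).le (by linarith)
  rw [← sq_abs (p.R h k₂)] at hc3 hL2 hL2g
  set V := p.V a h k₁ k₂ with hVdef
  set R := p.R h k₂ with hRdef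
  set L2 := p.L2 a h k₁ k₂ with hL2def
  set L3 := p.L3 a h k₁ k₂ with hL3def
  set D := p.D with hDdef
  set e := Real.exp (p.T / 2) with hedef
  have he0 : 0 < e := Real.exp_pos _
  rw [← hxe] at hL2 hL2g
  obtain ⟨ε, hε⟩ : ∃ ε, ε = Real.exp (-(et δ * p.T)) := ⟨_, rfl⟩
  rw [← hε]
  have hε0 : 0 < ε := by rw [hε]; exact Real.exp_pos _
  have hε1 : ε ≤ 1 := by
    rw [hε, ← Real.exp_zero]
    exact Real.exp_le_exp.2 (by linarith)
  obtain ⟨q, hq⟩ : ∃ q, q = Real.exp (3 / 4 * p.T) := ⟨_, rfl⟩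
  have hq0 : 0 < q := by rw [hq]; exact Real.exp_pos _
  have hRq : |R| ≤ q := by
    rw [hq, ← o.rpow f]
    exact hR4
  have hqe : q ^ 2 = e ^ 3 := by
    rw [hq, hedef, ← Real.exp_nat_mul, ← Real.exp_nat_mul]
    congr 1
    push_cast
    ring
  have hqε : q ≤ ε * e ^ 3 := by
    rw [hq, hε, hedef, ← Real.exp_nat_mul, ← Real.exp_add]
    refine Real.exp_le_exp.2 ?_
    push_cast
    linarith
  have heq : e ^ 3 ≤ ε * e ^ 4 := by
    rw [hε, hedef, ← Real.exp_nat_mul, ← Real.exp_nat_mul, ← Real.exp_add]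
    refine Real.exp_le_exp.2 ?_
    push_cast
    linarith
  have hqe2 : q * e ≤ ε * e ^ 4 := by
    calc q * e ≤ (ε * e ^ 3) * e := by gcongr
      _ = _ := by ring
  have hDε : Real.exp (-(δ * p.T)) ≤ ε := by
    rw [hε]
    exact Real.exp_le_exp.2 (by linarith)
  have hDR : D ≤ |R| ^ 2 := by
    refine hc3.trans ?_
    have : Real.exp (-(δ * p.T)) ≤ 1 := hDε.trans hε1
    calc Real.exp (-(δ * p.T)) * |R| ^ 2 ≤ 1 * |R| ^ 2 := by gcongr
      _ = _ := one_mul _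
  have hV1 : 1 ≤ V := by linarith
  have hVe3 : e ^ 3 ≤ 8 * V ^ 3 := by
    calc e ^ 3 ≤ (2 * V) ^ 3 := pow_le_pow_left₀ he0.le v1 3
      _ = _ := by ring
  have hVe2 : e ^ 2 ≤ 4 * V ^ 2 := by
    calc e ^ 2 ≤ (2 * V) ^ 2 := pow_le_pow_left₀ he0.le v1 2
      _ = _ := by ring
  have hVe4 : e ^ 4 ≤ 16 * V ^ 4 := by
    calc e ^ 4 ≤ (2 * V) ^ 4 := pow_le_pow_left₀ he0.le v1 4
      _ = _ := by ring
  have hL2a : |L2| * e ^ 4 ≤ 65 * |R| ^ 2 := by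
    calc |L2| * e ^ 4 = |L2| * (e ^ 2) ^ 2 := by ring
      _ ≤ D + 64 * |R| ^ 2 := hL2
      _ ≤ _ := by linarith
  have hL3a : |L3| * e ^ 5 ≤ 13 * |R| ^ 2 * e ^ 3 + 171 * |R| ^ 3 := by
    refine hL3.trans ?_
    gcongr
  have hRq2 : |R| ^ 2 ≤ e ^ 3 := by
    rw [← hqe]
    exact pow_le_pow_left₀ hR0.le hRq 2
  have hRe3 : |R| ≤ e ^ 3 := by
    calc |R| ≤ q := hRq
      _ ≤ ε * e ^ 3 := hqε
      _ ≤ 1 * e ^ 3 := by gcongr
      _ = _ := one_mul _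
  have hL3b : |L3| * e ^ 5 ≤ 184 * |R| ^ 2 * e ^ 3 := by
    refine hL3a.trans ?_
    have : |R| ^ 3 ≤ |R| ^ 2 * e ^ 3 := by
      calc |R| ^ 3 = |R| ^ 2 * |R| := by ring
        _ ≤ |R| ^ 2 * e ^ 3 := by gcongr
    nlinarith
  refine ⟨?_, ?_, ?_, ?_, ?_, ?_, ?_⟩
  · rw [abs_div, abs_of_pos (pow_pos hV 3), div_le_iff₀ (by positivity)]
    calc |R| ≤ q := hRq
      _ ≤ ε * e ^ 3 := hqε
      _ ≤ ε * (8 * V ^ 3) := by gcongr
      _ = _ := by ring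
  · rw [abs_div, abs_of_pos (pow_pos hV 2), div_le_iff₀ (by positivity)]
    have h1 : |L2| * e ^ 4 ≤ (65 * ε) * e ^ 4 := by
      calc |L2| * e ^ 4 ≤ 65 * |R| ^ 2 := hL2a
        _ ≤ 65 * e ^ 3 := by gcongr
        _ ≤ 65 * (ε * e ^ 4) := by gcongr
        _ = _ := by ring
    have h2 : |L2| ≤ 65 * ε := le_of_mul_le_mul_right h1 (by positivity)
    refine h2.trans (le_mul_of_one_le_right (by positivity) (one_le_pow₀ hV1))
  · rw [abs_div, abs_of_pos (pow_pos hV 4), div_le_iff₀ (by positivity)]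
    have h1 : |L3| * e ^ 5 ≤ (184 * ε * e ^ 4) * e ^ 5 := by
      calc |L3| * e ^ 5 ≤ 184 * |R| ^ 2 * e ^ 3 := hL3b
        _ ≤ 184 * e ^ 3 * e ^ 3 := by gcongr
        _ = 184 * e ^ 3 * (e * e ^ 2) := by ring
        _ ≤ 184 * (ε * e ^ 4) * (e * e ^ 4) := by
            gcongr
            · linarith
            · norm_num
        _ = _ := by ring
    have h2 : |L3| ≤ 184 * ε * e ^ 4 := le_of_mul_le_mul_right h1 (by positivity)
    calc |L3| ≤ 184 * ε * e ^ 4 := h2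
      _ ≤ 184 * ε * (16 * V ^ 4) := by gcongr
      _ = _ := by ring
  · rw [abs_div, abs_mul, abs_of_pos hV, div_le_iff₀ hR0]
    have h1 : (V * |L2|) * e ^ 4 ≤ (130 * ε * |R|) * e ^ 4 := by
      calc (V * |L2|) * e ^ 4 = V * (|L2| * e ^ 4) := by ring
        _ ≤ (2 * e) * (65 * |R| ^ 2) := by gcongr
        _ = 130 * |R| * (|R| * e) := by ring
        _ ≤ 130 * |R| * (q * e) := by gcongr
        _ ≤ 130 * |R| * (ε * e ^ 4) := by gcongr
        _ = _ := by ring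
    exact le_of_mul_le_mul_right h1 (by positivity)
  · rw [abs_div, abs_mul, abs_of_pos hV, div_le_iff₀ (by positivity)]
    have h1 : |L3| * e ^ 5 ≤ (368 * ε * (V * |R|)) * e ^ 5 := by
      calc |L3| * e ^ 5 ≤ 184 * |R| ^ 2 * e ^ 3 := hL3b
        _ = 184 * |R| * e ^ 2 * (|R| * e) := by ring
        _ ≤ 184 * |R| * e ^ 2 * (q * e) := by gcongr
        _ ≤ 184 * |R| * e ^ 2 * (ε * e ^ 4) := by gcongr
        _ = 184 * |R| * ε * e * e ^ 5 := by ring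
        _ ≤ 184 * |R| * ε * (2 * V) * e ^ 5 := by gcongr
        _ = _ := by ring
    exact le_of_mul_le_mul_right h1 (by positivity)
  · by_contra hcon
    have h0 : |L2| = 0 := le_antisymm (not_lt.1 hcon) (abs_nonneg _)
    rw [h0, zero_mul, zero_add] at hL2g
    have h1 : 864 * D ≤ |R| ^ 2 := by
      have h2 : Real.exp (δ * p.T) * D ≤ |R| ^ 2 := by
        calc Real.exp (δ * p.T) * D ≤ Real.exp (δ * p.T) * (Real.exp (-(δ * p.T)) * |R| ^ 2) := by gcongr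
          _ = |R| ^ 2 := by rw [← mul_assoc, ← Real.exp_add]; simp
      nlinarith
    have : 0 < |R| ^ 2 := by positivity
    linarith
  · have h1 : 864 * D ≤ |R| ^ 2 := by
      have h2 : Real.exp (δ * p.T) * D ≤ |R| ^ 2 := by
        calc Real.exp (δ * p.T) * D ≤ Real.exp (δ * p.T) * (Real.exp (-(δ * p.T)) * |R| ^ 2) := by gcongr
          _ = |R| ^ 2 := by rw [← mul_assoc, ← Real.exp_add]; simp
      nlinarith
    have h2 : |R| ^ 2 ≤ 864 * (|L2| * e ^ 4) := by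
      have e1 : (e ^ 2) ^ 2 = e ^ 4 := by ring
      rw [e1] at hL2g
      linarith
    have hL2p : 0 < |L2| := by
      by_contra hcon
      have h0 : |L2| = 0 := le_antisymm (not_lt.1 hcon) (abs_nonneg _)
      rw [h0, zero_mul, mul_zero] at h2
      have : 0 < |R| ^ 2 := by positivity
      linarith
    rw [abs_div, abs_mul, abs_of_pos (pow_pos hV 2), div_le_iff₀ (by positivity)]
    have h3 : |L3| * e ^ 5 ≤ 184 * ε * |R| ^ 2 * e ^ 3 := by
      calc |L3| * e ^ 5 ≤ 13 * D * e ^ 3 + 171 * |R| ^ 3 := hL3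
        _ ≤ 13 * (Real.exp (-(δ * p.T)) * |R| ^ 2) * e ^ 3 + 171 * (|R| ^ 2 * q) := by
            have : |R| ^ 3 ≤ |R| ^ 2 * q := by
              calc |R| ^ 3 = |R| ^ 2 * |R| := by ring
                _ ≤ _ := by gcongr
            gcongr
        _ ≤ 13 * (ε * |R| ^ 2) * e ^ 3 + 171 * (|R| ^ 2 * (ε * e ^ 3)) := by gcongr
        _ = _ := by ring
    have h4 : |L3| * e ^ 5 ≤ (635904 * ε * (V ^ 2 * |L2|)) * e ^ 5 := by
      calc |L3| * e ^ 5 ≤ 184 * ε * |R| ^ 2 * e ^ 3 := h3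
        _ ≤ 184 * ε * (864 * (|L2| * e ^ 4)) * e ^ 3 := by gcongr
        _ = 158976 * ε * |L2| * e ^ 2 * e ^ 5 := by ring
        _ ≤ 158976 * ε * |L2| * (4 * V ^ 2) * e ^ 5 := by gcongr
        _ = _ := by ring
    exact le_of_mul_le_mul_right h4 (by positivity)

end

end Pool.Agent.Zk43.HO
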