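import Mathlib
import Pool.Agent.Zk43.HO.Fin

/-!
# Integral points of Mordell curves with ordinate near an `S`-unit: the case of large remainders
-/

set_option autoImplicit false

open Finset Filter Topology

namespace Pool.Agent.Zk43.HO

open Pool.Agent.Zk43.HS (Smooth seqSub lim0 alg_q et et_pos et_le integral)

variable {S : Finset ℕ} {a h : ℤ} {k₁ k₂ : ℕ} {B δ : ℝ} {p : Pt}

/-- **large remainders** -/
theorem caseC (f : Fix a h k₁ k₂ B δ) :
    ∃ t : ℝ, ∀ p : Pt, Ok S a h k₁ k₂ B p → Big h k₂ δ p → p.T < t := by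
  by_contra hcon
  push Not at hcon
  have hKK := KK_pos f
  have hB0 := f.B0
  have hδ := f.δ0
  set K := KK a h k₁ k₂ B with hK
  obtain ⟨ℓ, hℓ⟩ : ∃ ℓ, ℓ = Real.log 65 + Real.log 184 := ⟨_, rfl⟩
  have hl65 : 0 ≤ Real.log 65 := Real.log_nonneg (by norm_num)
  have hl184 : 0 ≤ Real.log 184 := Real.log_nonneg (by norm_num)
  set 𝒜 : Set Pt := {p | Ok S a h k₁ k₂ B p ∧ Big h k₂ δ p ∧ 2 * ℓ / δ ≤ p.T ∧ Real.log 864 / δ ≤ p.T ∧
    ℓ ≤ p.T} with h𝒜
  have hunb : ∀ t : ℝ, ∃ p ∈ 𝒜, t ≤ p.T := by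
    intro t
    obtain ⟨p, h1, h2, h3⟩ := hcon (max (max t ℓ) (max (2 * ℓ / δ) (Real.log 864 / δ)))
    exact ⟨p, ⟨h1, h2, ((le_max_left _ _).trans (le_max_right _ _)).trans h3,
      ((le_max_right _ _).trans (le_max_right _ _)).trans h3,
      ((le_max_right _ _).trans (le_max_left _ _)).trans h3⟩,
      ((le_max_left _ _).trans (le_max_left _ _)).trans h3⟩
  have hApos : 0 < AA a h k₁ k₂ := by
    obtain ⟨p, h1, -⟩ := hunb 0
    exact h1.1.Apos f
  obtain ⟨s, hs⟩ : ∃ s, s = cr a h k₁ k₂ := ⟨_, rfl⟩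
  have hs0 : 0 < s := by rw [hs]; exact Real.rpow_pos_of_pos hApos _
  have hk0 : (k₂ : ℝ) ≠ 0 := by exact_mod_cast f.k2
  have hh0 : (h : ℝ) ≠ 0 := by exact_mod_cast f.h0
  obtain ⟨c, hc0, hc⟩ := seqSub (n := 4) (by norm_num) S (MM h k₂ (cr a h k₁ k₂))
    (alg_MM a h k₁ k₂ hApos)
    (by
      intro i j hij
      fin_cases i <;> fin_cases j <;> first | rfl | (exfalso; revert hij; decide))
    (by
      intro i
      fin_cases i <;> exact one_ne_zero)
    𝒜 Pt.T XX DD (EE h k₂ δ) (20 * K + 4 + δ) (δ / 2) (by linarith) (by linarith) hunb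
    (fun p hp => hp.1.T1 f)
    (fun p hp h0 => by
      have h1 := congrFun h0 0
      have h3 : (p.w₁ : ℤ) ≠ 0 := by exact_mod_cast hp.1.s1.1
      exact pow_ne_zero 4 h3 h1)
    (fun p hp l => by
      have q1 := hp.1.s1
      have q2 := hp.1.s2
      have q3 := hp.1.sn
      fin_cases l
      · exact q1.pow 4
      · exact q1.mul q3
      · exact (q1.pow 2).mul (q2.pow 2)
      · exact q2.pow 4)
    (fun p hp l => by
      have hT := hp.1.T1 f
      obtain ⟨h1, h2⟩ := hp.1.lw1 f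
      obtain ⟨h3, h4⟩ := hp.1.lw2 f
      obtain ⟨h5, h6, h7⟩ := hp.1.lnr f hp.2.1
      have g1 := hp.1.w1 f
      have g2 := hp.1.w2 f
      have g3 := hp.1.n0 f
      have g3' : (0 : ℝ) < p.n := by linarith
      have hKT : 0 ≤ K * p.T := by nlinarith
      have hδT : 0 ≤ δ * p.T := by nlinarith
      have e8 : (20 * K + 4 + δ) * p.T = 20 * (K * p.T) + 4 * p.T + δ * p.T := by ring
      rw [e8]
      fin_cases l
      · show (((p.w₁ ^ 4 : ℕ)) : ℝ) ≤ _
        push_cast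
        rw [← Real.log_le_iff_le_exp (by positivity), Real.log_pow]
        push_cast
        linarith
      · show (((p.w₁ * p.n : ℕ)) : ℝ) ≤ _
        push_cast
        rw [← Real.log_le_iff_le_exp (by positivity), Real.log_mul (by positivity) (by positivity)]
        linarith
      · show (((p.w₁ ^ 2 * p.w₂ ^ 2 : ℕ)) : ℝ) ≤ _
        push_cast
        rw [← Real.log_le_iff_le_exp (by positivity), Real.log_mul (by positivity) (by positivity), Real.log_pow,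
          Real.log_pow]
        push_cast
        linarith
      · show (((p.w₂ ^ 4 : ℕ)) : ℝ) ≤ _
        push_cast
        rw [← Real.log_le_iff_le_exp (by positivity), Real.log_pow]
        push_cast
        linarith)
    (fun p hp l => by
      fin_cases l
      · show (((p.w₁ ^ 4 : ℕ)) : ℤ) ∣ (p.w₁ : ℤ) ^ 4
        push_cast
        exact dvd_rfl
      · show (((p.w₁ * p.n : ℕ)) : ℤ) ∣ (p.w₁ : ℤ) * p.n * p.r
        push_cast
        exact Dvd.intro _ rfl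
      · show (((p.w₁ ^ 2 * p.w₂ ^ 2 : ℕ)) : ℤ) ∣ (p.w₁ : ℤ) ^ 2 * (p.w₂ : ℤ) ^ 2 * p.x
        push_cast
        exact Dvd.intro _ rfl
      · show (((p.w₂ ^ 4 : ℕ)) : ℤ) ∣ (p.w₂ : ℤ) ^ 4 * p.x ^ 2
        push_cast
        exact Dvd.intro _ rfl)
    (fun p hp l => by
      have hT := hp.1.T1 f
      obtain ⟨h1, h2⟩ := hp.1.lw1 f
      obtain ⟨h3, h4⟩ := hp.1.lw2 f
      obtain ⟨h5, h6, h7⟩ := hp.1.lnr f hp.2.1
      have hR := abs_le.1 (hp.1.lR f hp.2.1)
      have hℓT := hp.2.2.2.2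
      have hδT : 0 ≤ δ * p.T := by nlinarith
      have hKT : 0 ≤ K * p.T := by nlinarith
      have e8 : (20 * K + 4 + δ) * p.T = 20 * (K * p.T) + 4 * p.T + δ * p.T := by ring
      have e9 : 4 * K * p.T = 4 * (K * p.T) := by ring
      rw [← hK, e9] at hR
      rw [e8, abs_le]
      fin_cases l
      · show _ ≤ 4 * Real.log p.w₁ ∧ 4 * Real.log p.w₁ ≤ _
        constructor <;> linarith
      · show _ ≤ Real.log p.w₁ + Real.log p.n + Real.log |(p.r : ℝ)| ∧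
          Real.log p.w₁ + Real.log p.n + Real.log |(p.r : ℝ)| ≤ _
        constructor <;> linarith
      · show _ ≤ 2 * Real.log p.w₁ + 2 * Real.log p.w₂ + (Real.log 65 + 2 * Real.log |p.R h k₂| - 2 * p.T) ∧
          2 * Real.log p.w₁ + 2 * Real.log p.w₂ + (Real.log 65 + 2 * Real.log |p.R h k₂| - 2 * p.T) ≤ _
        constructor <;> linarith [hR.1, hR.2]
      · show _ ≤ 4 * Real.log p.w₂ +
            (Real.log 184 - δ * p.T - Real.log |(p.r : ℝ)| - 2 * Real.log |p.R h k₂| + 2 * p.T) ∧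
          4 * Real.log p.w₂ +
            (Real.log 184 - δ * p.T - Real.log |(p.r : ℝ)| - 2 * Real.log |p.R h k₂| + 2 * p.T) ≤ _
        constructor <;> linarith [hR.1, hR.2])
    (fun p hp l => by
      have g1 := hp.1.w1 f
      have g2 := hp.1.w2 f
      have g3 := hp.1.n0 f
      have g3' : (0 : ℝ) < p.n := by linarith
      have g4 : (0 : ℝ) < |(p.r : ℝ)| := abs_pos.2 (by exact_mod_cast hp.1.rne f hp.2.1)
      have g5 : (0 : ℝ) < |p.R h k₂| := abs_pos.2 (hp.1.Rne f hp.2.1)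
      fin_cases l
      · show |∑ j, MM h k₂ (cr a h k₁ k₂) 0 j * (XX p j : ℝ)| ≤ Real.exp (4 * Real.log p.w₁)
        have h1 : ∑ j, MM h k₂ (cr a h k₁ k₂) 0 j * (XX p j : ℝ) = (p.w₁ : ℝ) ^ 4 := by
          rw [Fin.sum_univ_four]
          show (1 : ℝ) * (((p.w₁ : ℤ) ^ 4 : ℤ) : ℝ) + 0 * _ + 0 * _ + 0 * _ = _
          push_cast
          ring
        rw [h1, abs_of_nonneg (by positivity), ← Real.log_le_iff_le_exp (by positivity), Real.log_pow]
        push_cast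
        exact le_rfl
      · show |∑ j, MM h k₂ (cr a h k₁ k₂) 1 j * (XX p j : ℝ)| ≤
          Real.exp (Real.log p.w₁ + Real.log p.n + Real.log |(p.r : ℝ)|)
        have h1 : ∑ j, MM h k₂ (cr a h k₁ k₂) 1 j * (XX p j : ℝ) = (p.w₁ : ℝ) * p.n * p.r := by
          rw [Fin.sum_univ_four]
          show (0 : ℝ) * _ + 1 * (((p.w₁ : ℤ) * p.n * p.r : ℤ) : ℝ) + 0 * _ + 0 * _ = _
          push_cast
          ring
        rw [h1, abs_mul, abs_of_nonneg (by positivity),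
          ← Real.log_le_iff_le_exp (by positivity), Real.log_mul (by positivity) (by positivity),
          Real.log_mul (by positivity) (by positivity)]
      · show |∑ j, MM h k₂ (cr a h k₁ k₂) 2 j * (XX p j : ℝ)| ≤
          Real.exp (2 * Real.log p.w₁ + 2 * Real.log p.w₂ + (Real.log 65 + 2 * Real.log |p.R h k₂| - 2 * p.T))
        rw [hp.1.form2 f, abs_mul, abs_of_pos (by positivity : 0 < (p.w₁ : ℝ) ^ 2 * (p.w₂ : ℝ) ^ 2), Real.exp_add]
        have h1 : Real.exp (2 * Real.log p.w₁ + 2 * Real.log p.w₂) = (p.w₁ : ℝ) ^ 2 * (p.w₂ : ℝ) ^ 2 := by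
          rw [Real.exp_add, mul_comm 2, Real.exp_mul, Real.exp_log g1, mul_comm 2, Real.exp_mul, Real.exp_log g2]
          norm_cast
        rw [h1]
        refine mul_le_mul_of_nonneg_left ?_ (by positivity)
        have h2 := hp.1.L2le f
        have h3 : p.D ≤ p.R h k₂ ^ 2 := by
          refine hp.2.1.c3.trans ?_
          have h4 : Real.exp (-(δ * p.T)) ≤ 1 := by
            rw [← Real.exp_zero]
            have : 0 ≤ δ * p.T := mul_nonneg hδ.le (by linarith [hp.1.T1 f])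
            exact Real.exp_le_exp.2 (by linarith)
          calc Real.exp (-(δ * p.T)) * p.R h k₂ ^ 2 ≤ 1 * p.R h k₂ ^ 2 := by gcongr
            _ = _ := one_mul _
        have h4 : Real.exp (2 * Real.log |p.R h k₂|) = p.R h k₂ ^ 2 := by
          rw [show (2 : ℝ) * Real.log |p.R h k₂| = ((2 : ℕ) : ℝ) * Real.log |p.R h k₂| by norm_num,
            Real.exp_nat_mul, Real.exp_log g5, sq_abs]
        have h5 : Real.exp (2 * p.T) = (p.x : ℝ) ^ 2 := by
          rw [show (2 : ℝ) * p.T = ((2 : ℕ) : ℝ) * p.T by norm_num, Real.exp_nat_mul, hp.1.expT f]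
        rw [Real.exp_sub, Real.exp_add, Real.exp_log (by norm_num), h4, h5, le_div_iff₀ (by
          have := hp.1.x0 f
          positivity)]
        linarith
      · show |∑ j, MM h k₂ (cr a h k₁ k₂) 3 j * (XX p j : ℝ)| ≤
          Real.exp (4 * Real.log p.w₂ +
            (Real.log 184 - δ * p.T - Real.log |(p.r : ℝ)| - 2 * Real.log |p.R h k₂| + 2 * p.T))
        rw [hp.1.form3 f, abs_mul, abs_of_pos (by positivity : 0 < (p.w₂ : ℝ) ^ 4), Real.exp_add]
        have h1 : Real.exp (4 * Real.log p.w₂) = (p.w₂ : ℝ) ^ 4 := by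
          rw [mul_comm 4, Real.exp_mul, Real.exp_log g2]
          norm_cast
        rw [h1]
        refine mul_le_mul_of_nonneg_left ?_ (by positivity)
        have h2 := hp.1.L3r f hp.2.1
        have h4 : Real.exp (2 * Real.log |p.R h k₂|) = |p.R h k₂| ^ 2 := by
          rw [show (2 : ℝ) * Real.log |p.R h k₂| = ((2 : ℕ) : ℝ) * Real.log |p.R h k₂| by norm_num,
            Real.exp_nat_mul, Real.exp_log g5]
        have h6 : Real.log 184 - δ * p.T - Real.log |(p.r : ℝ)| - 2 * Real.log |p.R h k₂| + 2 * p.T =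
            (Real.log 184 + -(δ * p.T) + 2 * p.T) - (Real.log |(p.r : ℝ)| + 2 * Real.log |p.R h k₂|) := by ring
        rw [h6, Real.exp_sub, Real.exp_add, Real.exp_add, Real.exp_log (by norm_num), Real.exp_add,
          Real.exp_log g4, h4, le_div_iff₀ (by positivity)]
        exact h2)
    (fun p hp => by
      have g1 := hp.1.w1 f
      have g2 := hp.1.w2 f
      have g3 := hp.1.n0 f
      have g3' : (0 : ℝ) < p.n := by linarith
      have g5 := hp.2.2.1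
      rw [div_le_iff₀ hδ, hℓ] at g5
      rw [Fin.sum_univ_four, Fin.sum_univ_four]
      show 4 * Real.log p.w₁ + (Real.log p.w₁ + Real.log p.n + Real.log |(p.r : ℝ)|) +
        (2 * Real.log p.w₁ + 2 * Real.log p.w₂ + (Real.log 65 + 2 * Real.log |p.R h k₂| - 2 * p.T)) +
        (4 * Real.log p.w₂ +
          (Real.log 184 - δ * p.T - Real.log |(p.r : ℝ)| - 2 * Real.log |p.R h k₂| + 2 * p.T)) + δ / 2 * p.T ≤
        Real.log ((p.w₁ ^ 4 : ℕ) : ℝ) + Real.log ((p.w₁ * p.n : ℕ) : ℝ) +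
        Real.log ((p.w₁ ^ 2 * p.w₂ ^ 2 : ℕ) : ℝ) + Real.log ((p.w₂ ^ 4 : ℕ) : ℝ)
      push_cast
      rw [Real.log_pow, Real.log_mul (by positivity) (by positivity),
        Real.log_mul (by positivity) (by positivity), Real.log_pow, Real.log_pow, Real.log_pow]
      push_cast
      linarith)
  -- the relation
  obtain ⟨α, hα⟩ : ∃ α : ℝ, α = c 0 / s ^ 4 := ⟨_, rfl⟩
  obtain ⟨β, hβ⟩ : ∃ β : ℝ, β = c 1 * (h * k₂) / s := ⟨_, rfl⟩
  obtain ⟨γ, hγ⟩ : ∃ γ : ℝ, γ = c 2 / s ^ 2 := ⟨_, rfl⟩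
  obtain ⟨μ, hμ⟩ : ∃ μ : ℝ, μ = c 3 := ⟨_, rfl⟩
  have hrel : ∀ p ∈ 𝒜, ∑ l, c l * XX p l = 0 →
      (α + γ + μ) * p.V a h k₁ k₂ ^ 4 + (β + 2 / 3 * γ + 4 / 3 * μ) * (p.V a h k₁ k₂ * p.R h k₂) +
        (γ - 2 * μ) * (p.V a h k₁ k₂ ^ 2 * p.L2 a h k₁ k₂) + μ * p.L3 a h k₁ k₂ = 0 := by
    intro p hp h0
    have g1 := hp.1.w1 f
    have g2 := hp.1.w2 f
    rw [Fin.sum_univ_four] at h0
    have h1 : (c 0 : ℝ) * (p.w₁ : ℝ) ^ 4 + c 1 * ((p.w₁ : ℝ) * p.n * p.r) +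
        c 2 * ((p.w₁ : ℝ) ^ 2 * (p.w₂ : ℝ) ^ 2 * p.x) + c 3 * ((p.w₂ : ℝ) ^ 4 * (p.x : ℝ) ^ 2) = 0 := by
      have h2 : c 0 * (p.w₁ : ℤ) ^ 4 + c 1 * ((p.w₁ : ℤ) * p.n * p.r) +
        c 2 * ((p.w₁ : ℤ) ^ 2 * (p.w₂ : ℤ) ^ 2 * p.x) + c 3 * ((p.w₂ : ℤ) ^ 4 * p.x ^ 2) = 0 := h0
      exact_mod_cast h2
    have h3 : ((α + γ + μ) * p.V a h k₁ k₂ ^ 4 + (β + 2 / 3 * γ + 4 / 3 * μ) * (p.V a h k₁ k₂ * p.R h k₂) +
        (γ - 2 * μ) * (p.V a h k₁ k₂ ^ 2 * p.L2 a h k₁ k₂) + μ * p.L3 a h k₁ k₂) * (p.w₂ : ℝ) ^ 4 =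
        (c 0 : ℝ) * (p.w₁ : ℝ) ^ 4 + c 1 * ((p.w₁ : ℝ) * p.n * p.r) +
        c 2 * ((p.w₁ : ℝ) ^ 2 * (p.w₂ : ℝ) ^ 2 * p.x) + c 3 * ((p.w₂ : ℝ) ^ 4 * (p.x : ℝ) ^ 2) := by
      unfold Pt.L2 Pt.L3 Pt.V Pt.W Pt.R
      rw [← hs, hα, hβ, hγ, hμ]
      field_simp
      ring
    rw [h1] at h3
    exact (mul_eq_zero.1 h3).resolve_right (by positivity)
  have hsz : ∀ p ∈ 𝒜, _ := fun p hp => hp.1.sizes f hp.2.1 (by
    have h1 := hp.2.2.2.1
    rw [div_le_iff₀ hδ] at h1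
    rw [← Real.exp_log (by norm_num : (0 : ℝ) < 864)]
    exact Real.exp_le_exp.2 (by linarith))
  have hP : α + γ + μ = 0 := by
    refine lim0 (et_pos hδ) (C := |β + 2 / 3 * γ + 4 / 3 * μ| * 8 + |γ - 2 * μ| * 65 + |μ| * 2944) fun t => ?_
    obtain ⟨p, hp, ht, h0⟩ := hc t
    obtain ⟨s1, s2, s3, s4, s5, s6, s7⟩ := hsz p hp
    have hV := hp.1.Vpos f
    have h1 := hrel p hp h0
    set V := p.V a h k₁ k₂
    set R := p.R h k₂
    set L2 := p.L2 a h k₁ k₂
    set L3 := p.L3 a h k₁ k₂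
    refine ⟨p.T, ht, (β + 2 / 3 * γ + 4 / 3 * μ) * (R / V ^ 3) + (γ - 2 * μ) * (L2 / V ^ 2) + μ * (L3 / V ^ 4), ?_, ?_⟩
    · calc _ ≤ |(β + 2 / 3 * γ + 4 / 3 * μ) * (R / V ^ 3)| + |(γ - 2 * μ) * (L2 / V ^ 2)| + |μ * (L3 / V ^ 4)| :=
            abs_add_three _ _ _
        _ = |β + 2 / 3 * γ + 4 / 3 * μ| * |R / V ^ 3| + |γ - 2 * μ| * |L2 / V ^ 2| + |μ| * |L3 / V ^ 4| := by
            rw [abs_mul, abs_mul, abs_mul]
        _ ≤ |β + 2 / 3 * γ + 4 / 3 * μ| * (8 * Real.exp (-(et δ * p.T))) +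
            |γ - 2 * μ| * (65 * Real.exp (-(et δ * p.T))) + |μ| * (2944 * Real.exp (-(et δ * p.T))) := by gcongr
        _ = _ := by ring
    · have h2 : (α + γ + μ + ((β + 2 / 3 * γ + 4 / 3 * μ) * (R / V ^ 3) + (γ - 2 * μ) * (L2 / V ^ 2) +
          μ * (L3 / V ^ 4))) * V ^ 4 = 0 := by
        rw [← h1]
        field_simp
        ring
      exact (mul_eq_zero.1 h2).resolve_right (pow_pos hV 4).ne'
  have hQ : β + 2 / 3 * γ + 4 / 3 * μ = 0 := by
    refine lim0 (et_pos hδ) (C := |γ - 2 * μ| * 130 + |μ| * 368) fun t => ?_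
    obtain ⟨p, hp, ht, h0⟩ := hc t
    obtain ⟨s1, s2, s3, s4, s5, s6, s7⟩ := hsz p hp
    have hV := hp.1.Vpos f
    have h1 := hrel p hp h0
    have hR := hp.1.Rne f hp.2.1
    set V := p.V a h k₁ k₂
    set R := p.R h k₂
    set L2 := p.L2 a h k₁ k₂
    set L3 := p.L3 a h k₁ k₂
    rw [hP, zero_mul, zero_add] at h1
    refine ⟨p.T, ht, (γ - 2 * μ) * (V * L2 / R) + μ * (L3 / (V * R)), ?_, ?_⟩
    · calc _ ≤ |(γ - 2 * μ) * (V * L2 / R)| + |μ * (L3 / (V * R))| := abs_add_le _ _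
        _ = |γ - 2 * μ| * |V * L2 / R| + |μ| * |L3 / (V * R)| := by
            rw [abs_mul, abs_mul]
        _ ≤ |γ - 2 * μ| * (130 * Real.exp (-(et δ * p.T))) + |μ| * (368 * Real.exp (-(et δ * p.T))) := by gcongr
        _ = _ := by ring
    · have h2 : (β + 2 / 3 * γ + 4 / 3 * μ + ((γ - 2 * μ) * (V * L2 / R) + μ * (L3 / (V * R)))) * (V * R) = 0 := by
        rw [← h1]
        field_simp
        ring
      exact (mul_eq_zero.1 h2).resolve_right (mul_ne_zero hV.ne' hR)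
  have hZ : γ - 2 * μ = 0 := by
    refine lim0 (et_pos hδ) (C := |μ| * 635904) fun t => ?_
    obtain ⟨p, hp, ht, h0⟩ := hc t
    obtain ⟨s1, s2, s3, s4, s5, s6, s7⟩ := hsz p hp
    have hV := hp.1.Vpos f
    have h1 := hrel p hp h0
    set V := p.V a h k₁ k₂
    set R := p.R h k₂
    set L2 := p.L2 a h k₁ k₂
    set L3 := p.L3 a h k₁ k₂
    have hL : L2 ≠ 0 := abs_pos.1 s6
    rw [hP, hQ, zero_mul, zero_add, zero_mul, zero_add] at h1
    refine ⟨p.T, ht, μ * (L3 / (V ^ 2 * L2)), ?_, ?_⟩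
    · rw [abs_mul]
      calc _ ≤ |μ| * (635904 * Real.exp (-(et δ * p.T))) := by gcongr
        _ = _ := by ring
    · have h2 : (γ - 2 * μ + μ * (L3 / (V ^ 2 * L2))) * (V ^ 2 * L2) = 0 := by
        rw [← h1]
        field_simp
      exact (mul_eq_zero.1 h2).resolve_right (mul_ne_zero (pow_ne_zero 2 hV.ne') hL)
  have hμ0 : μ ≠ 0 := by
    intro h0
    have hγ0 : γ = 0 := by linarith
    have hβ0 : β = 0 := by linarith
    have hα0 : α = 0 := by linarith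
    have g0 : (c 0 : ℝ) = 0 := by
      rw [hα, div_eq_zero_iff] at hα0
      exact hα0.resolve_right (pow_ne_zero 4 hs0.ne')
    have g1 : (c 1 : ℝ) = 0 := by
      rw [hβ, div_eq_zero_iff] at hβ0
      exact (mul_eq_zero.1 (hβ0.resolve_right hs0.ne')).resolve_right (mul_ne_zero hh0 hk0)
    have g2 : (c 2 : ℝ) = 0 := by
      rw [hγ, div_eq_zero_iff] at hγ0
      exact hγ0.resolve_right (pow_ne_zero 2 hs0.ne')
    have g3 : (c 3 : ℝ) = 0 := by rw [← hμ, h0]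
    apply hc0
    funext i
    fin_cases i
    · exact_mod_cast g0
    · exact_mod_cast g1
    · exact_mod_cast g2
    · exact_mod_cast g3
  -- `s` is rational
  obtain ⟨σ, hσ⟩ : ∃ σ : ℚ, (σ : ℝ) = s := by
    have h1 : (c 1 : ℝ) * (h * k₂) = -(8 / 3) * μ * s := by
      have h2 : β = -(8 / 3) * μ := by linarith
      rw [hβ, div_eq_iff hs0.ne'] at h2
      linarith
    refine ⟨-(3 / 8) * ((c 1 : ℚ) * (h * k₂)) / c 3, ?_⟩
    push_cast
    rw [h1, ← hμ]
    field_simp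
  -- the contradiction
  obtain ⟨p, hp, ht, h0⟩ := hc (max (Real.log 96 / δ + 1) 10)
  obtain ⟨s1, s2, s3, s4, s5, s6, s7⟩ := hsz p hp
  have hV := hp.1.Vpos f
  have hT10 : 10 ≤ p.T := (le_max_right _ _).trans ht
  have hR := hp.1.Rne f hp.2.1
  have hL0 : p.L3 a h k₁ k₂ = 0 := by
    have h1 := hrel p hp h0
    rw [hP, hQ, hZ, zero_mul, zero_mul, zero_mul, zero_add, zero_add, zero_add] at h1
    exact (mul_eq_zero.1 h1).resolve_left hμ0
  have hVc := hp.1.Vcu f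
  have hL2 := hp.1.L2le f
  have hL3d : p.L3 a h k₁ k₂ = (p.x : ℝ) ^ 2 + 2 * p.V a h k₁ k₂ ^ 2 * p.x - 3 * p.V a h k₁ k₂ ^ 4 -
    8 / 3 * p.V a h k₁ k₂ * p.R h k₂ := rfl
  have hL2d : p.L2 a h k₁ k₂ = p.x - p.V a h k₁ k₂ ^ 2 - 2 / 3 * p.R h k₂ / p.V a h k₁ k₂ := rfl
  obtain ⟨v1, v2⟩ := hp.1.Vbd f
  obtain ⟨v, hv⟩ : ∃ v : ℚ, (v : ℝ) = p.V a h k₁ k₂ := by
    refine ⟨σ * (p.w₁ / p.w₂), ?_⟩
    unfold Pt.V Pt.W
    rw [← hs, ← hσ]
    push_cast
    rfl
  have hc3 := hp.2.1.c3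
  have hc4 := hp.2.1.c4
  set V := p.V a h k₁ k₂ with hVd
  set R := p.R h k₂ with hRd
  set L2 := p.L2 a h k₁ k₂ with hL2n
  have hxV0 : (p.x : ℝ) - V ^ 2 ≠ 0 := by
    intro h5
    have h6 : (p.x : ℝ) = V ^ 2 := by linarith
    rw [hL0, h6] at hL3d
    have h7 : V * R = 0 := by linarith [hL3d]
    exact mul_ne_zero hV.ne' hR h7
  have hVR : V ≤ 3 * ((p.x : ℝ) - V ^ 2) ^ 2 := by
    have h5 := integral (V := v) (x := p.x) (y := p.y) (by
      have : (0 : ℝ) < v := by rw [hv]; exact hV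
      exact_mod_cast this) (by
      intro h6
      apply hxV0
      have h7 : ((p.x : ℝ) - (v : ℝ) ^ 2) = 0 := by exact_mod_cast h6
      rwa [hv] at h7) (by
      have h6 : 8 * (p.y : ℝ) * (v : ℝ) = -(v : ℝ) ^ 4 + 6 * (v : ℝ) ^ 2 * p.x + 3 * (p.x : ℝ) ^ 2 := by
        rw [hv]
        have h8 : R = p.y - V ^ 3 := by linarith
        rw [hL0, h8] at hL3d
        linarith [hL3d]
      exact_mod_cast h6)
    have h6 : (v : ℝ) ≤ 3 * ((p.x : ℝ) - (v : ℝ) ^ 2) ^ 2 := by exact_mod_cast h5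
    rwa [hv] at h6
  -- the size of `x - V ^ 2`
  have he0 := Real.exp_pos (p.T / 2)
  have hxe := hp.1.e2 f
  have hδT : 0 ≤ δ * p.T := mul_nonneg hδ.le (by linarith)
  have hs' : |(p.x : ℝ) - V ^ 2| * V ≤ 2 * |R| := by
    have h5 : |(p.x : ℝ) - V ^ 2| ≤ |L2| + 2 / 3 * |R| / V := by
      have h6 : (p.x : ℝ) - V ^ 2 = L2 + 2 / 3 * R / V := by rw [hL2d]; ring
      rw [h6]
      refine (abs_add_le _ _).trans (add_le_add le_rfl (le_of_eq ?_))
      rw [abs_div, abs_mul, abs_of_pos hV]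
      norm_num
    have h7 : |L2| * V ≤ |R| := by
      have h8 : |V * L2 / R| ≤ 1 := by
        have hR0 : 0 < |R| := abs_pos.2 hR
        have h9 : p.D ≤ R ^ 2 := by
          refine hc3.trans ?_
          have h4 : Real.exp (-(δ * p.T)) ≤ 1 := by
            rw [← Real.exp_zero]
            exact Real.exp_le_exp.2 (by linarith)
          calc Real.exp (-(δ * p.T)) * R ^ 2 ≤ 1 * R ^ 2 := by gcongr
            _ = _ := one_mul _
        rw [abs_div, abs_mul, abs_of_pos hV, div_le_one hR0]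
        have h10 : (V * |L2|) * (p.x : ℝ) ^ 2 ≤ |R| * (p.x : ℝ) ^ 2 := by
          have h11 : |L2| * (p.x : ℝ) ^ 2 ≤ 65 * |R| ^ 2 := by
            rw [sq_abs]
            linarith
          have h12 : |R| ≤ Real.exp (3 / 4 * p.T) := by
            rw [← hp.1.rpow f]
            exact hp.1.R4
          have h13 : 130 * (Real.exp (p.T / 2) * Real.exp (3 / 4 * p.T)) ≤ (p.x : ℝ) ^ 2 := by
            rw [← hp.1.expT f, ← Real.exp_nat_mul, ← Real.exp_add]
            have h14 : (130 : ℝ) ≤ Real.exp (3 / 4 * p.T) := by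
              have h15 : (7 : ℝ) ≤ 3 / 4 * p.T := by linarith
              have h16 : Real.exp 7 ≤ Real.exp (3 / 4 * p.T) := Real.exp_le_exp.2 h15
              have h17 : (130 : ℝ) ≤ Real.exp 7 := by
                have h18 : Real.exp 7 = Real.exp 1 ^ 7 := by rw [← Real.exp_nat_mul]; norm_num
                rw [h18]
                have h19 := Real.exp_one_gt_d9
                calc (130 : ℝ) ≤ 2.7 ^ 7 := by norm_num
                  _ ≤ Real.exp 1 ^ 7 := pow_le_pow_left₀ (by norm_num) (by linarith) 7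
              linarith
            calc 130 * Real.exp (p.T / 2 + 3 / 4 * p.T) ≤
                Real.exp (3 / 4 * p.T) * Real.exp (p.T / 2 + 3 / 4 * p.T) := by gcongr
              _ = Real.exp (((2 : ℕ) : ℝ) * p.T) := by
                  rw [← Real.exp_add]
                  congr 1
                  push_cast
                  ring
          calc (V * |L2|) * (p.x : ℝ) ^ 2 = V * (|L2| * (p.x : ℝ) ^ 2) := by ring
            _ ≤ (2 * Real.exp (p.T / 2)) * (65 * |R| ^ 2) := by gcongr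
            _ = |R| * (130 * (Real.exp (p.T / 2) * |R|)) := by ring
            _ ≤ |R| * (130 * (Real.exp (p.T / 2) * Real.exp (3 / 4 * p.T))) := by gcongr
            _ ≤ |R| * (p.x : ℝ) ^ 2 := by gcongr
        exact le_of_mul_le_mul_right h10 (by
          have := hp.1.x0 f
          positivity)
      rw [abs_div, abs_mul, abs_of_pos hV, div_le_one (abs_pos.2 hR)] at h8
      linarith
    calc |(p.x : ℝ) - V ^ 2| * V ≤ (|L2| + 2 / 3 * |R| / V) * V := by gcongr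
      _ = |L2| * V + 2 / 3 * |R| := by field_simp
      _ ≤ _ := by linarith [abs_nonneg R]
  have h5 : V ^ 3 ≤ 12 * |R| ^ 2 := by
    calc V ^ 3 = V * V ^ 2 := by ring
      _ ≤ (3 * ((p.x : ℝ) - V ^ 2) ^ 2) * V ^ 2 := by gcongr
      _ = 3 * (|(p.x : ℝ) - V ^ 2| * V) ^ 2 := by rw [mul_pow, sq_abs]; ring
      _ ≤ 3 * (2 * |R|) ^ 2 := by gcongr
      _ = _ := by ring
  have h6 : Real.exp (p.T / 2) ^ 3 ≤ 96 * |R| ^ 2 := by
    have : Real.exp (p.T / 2) ^ 3 ≤ (2 * V) ^ 3 := pow_le_pow_left₀ he0.le v1 3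
    have h7 : (2 * V) ^ 3 = 8 * V ^ 3 := by ring
    linarith
  have h7 : |R| ^ 2 ≤ Real.exp (p.T / 2) ^ 3 * Real.exp (-(2 * δ * p.T)) := by
    calc |R| ^ 2 ≤ Real.exp ((3 / 4 - δ) * p.T) ^ 2 := pow_le_pow_left₀ (abs_nonneg _) hc4 2
      _ = _ := by
        rw [← Real.exp_nat_mul, ← Real.exp_nat_mul, ← Real.exp_add]
        congr 1
        push_cast
        ring
  have h8 : Real.exp (2 * δ * p.T) ≤ 96 := by
    have h9 : 0 < Real.exp (p.T / 2) ^ 3 := by positivity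
    have h10 : 1 ≤ 96 * Real.exp (-(2 * δ * p.T)) := by
      by_contra hcon'
      push Not at hcon'
      nlinarith
    rw [Real.exp_neg, ← div_eq_mul_inv, le_div_iff₀ (Real.exp_pos _)] at h10
    linarith
  have h9 : δ * p.T ≤ Real.log 96 := by
    rw [Real.le_log_iff_exp_le (by norm_num)]
    exact (Real.exp_le_exp.2 (by linarith)).trans h8
  have h10 := (le_max_left _ _).trans ht
  have h11 : Real.log 96 / δ < p.T := by linarith
  rw [div_lt_iff₀ hδ] at h11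
  linarith

end Pool.Agent.Zk43.HO
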