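import Mathlib
import Pool.Agent.Zk43.HO.Main
import Pool.Agent.Zk43.HS.Cor

/-!
# Integral points of Mordell curves with ordinate near an `S`-unit: the theorems
-/

set_option autoImplicit false

open Finset Filter Topology

namespace Pool.Agent.Zk43.HO

open Pool.Agent.Zk43.HS (Smooth seqSub triv triv2 int_rpow_le ev_rpow)

/-- the cube-free `S`-smooth numbers -/
def CF (S : Finset ℕ) : Finset ℕ := (∏ p ∈ S.filter Nat.Prime, p ^ 2).divisors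

lemma cube_decomp {S : Finset ℕ} {u : ℕ} (hu : Smooth S u) :
    ∃ k w : ℕ, k ∈ CF S ∧ k ≠ 0 ∧ Smooth S w ∧ u = k * w ^ 3 ∧ w ≤ u := by
  obtain ⟨hu0, huS⟩ := hu
  set k : ℕ := ∏ p ∈ u.primeFactors, p ^ (u.factorization p % 3) with hk
  set w : ℕ := ∏ p ∈ u.primeFactors, p ^ (u.factorization p / 3) with hw
  have huk : u = k * w ^ 3 := by
    conv_lhs => rw [← Nat.factorization_prod_pow_eq_self hu0]
    rw [hk, hw, ← Finset.prod_pow, ← Finset.prod_mul_distrib]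
    unfold Finsupp.prod
    rw [Nat.support_factorization]
    refine Finset.prod_congr rfl fun p _ => ?_
    rw [← pow_mul, ← pow_add]
    congr 1
    omega
  have hk0 : k ≠ 0 := by
    intro h0
    rw [h0, zero_mul] at huk
    exact hu0 huk
  have hw0 : w ≠ 0 := by
    intro h0
    rw [h0] at huk
    simp at huk
    exact hu0 huk
  refine ⟨k, w, ?_, hk0, ?_, huk, ?_⟩
  · unfold CF
    rw [Nat.mem_divisors]
    refine ⟨?_, ?_⟩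
    · have h1 : k ∣ ∏ p ∈ u.primeFactors, p ^ 2 := by
        rw [hk]
        refine Finset.prod_dvd_prod_of_dvd _ _ fun p _ => pow_dvd_pow p ?_
        omega
      refine h1.trans (Finset.prod_dvd_prod_of_subset _ _ _ ?_)
      intro p hp
      exact mem_filter.2 ⟨huS hp, Nat.prime_of_mem_primeFactors hp⟩
    · rw [Finset.prod_ne_zero_iff]
      intro p hp
      exact pow_ne_zero 2 (mem_filter.1 hp).2.ne_zero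
  · have h1 : Smooth S u := ⟨hu0, huS⟩
    refine h1.of_dvd (?_ : w ∣ u)
    rw [huk]
    exact Dvd.dvd.mul_left (dvd_pow_self w (by norm_num)) k
  · conv_rhs => rw [huk]
    calc w ≤ w ^ 3 := Nat.le_self_pow (by norm_num) w
      _ ≤ k * w ^ 3 := Nat.le_mul_of_pos_left _ (Nat.pos_of_ne_zero hk0)

/-- the bounds for parameters in a finite set -/
lemma bounded (S : Finset ℕ) (H : ℕ) (B δ : ℝ) (hB : 0 ≤ B) (hδ : 0 < δ) :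
    ∃ t : ℝ, 0 < t ∧ ∀ (a h : ℤ) (k₁ k₂ : ℕ) (p : Pt), a ≠ 0 → h ≠ 0 → k₁ ≠ 0 → k₂ ≠ 0 →
      |a| ≤ H → |h| ≤ H → k₁ ∈ CF S → k₂ ∈ CF S → Ok S a h k₁ k₂ B p → t ≤ p.T →
      (|p.R h k₂| ≤ Real.exp ((1 / 2 - δ) * p.T) → p.D ≤ Real.exp ((2 - δ) * p.T) →
        Real.exp (3 / 2 * p.T) ≤ p.D) ∧ ¬ Big h k₂ δ p := by
  classical
  have hex : ∀ q : (ℤ × ℤ) × ℕ × ℕ, ∃ t : ℝ, ∀ p : Pt, q.1.1 ≠ 0 → q.1.2 ≠ 0 → q.2.1 ≠ 0 → q.2.2 ≠ 0 →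
      Ok S q.1.1 q.1.2 q.2.1 q.2.2 B p → t ≤ p.T →
      (|p.R q.1.2 q.2.2| ≤ Real.exp ((1 / 2 - δ) * p.T) → p.D ≤ Real.exp ((2 - δ) * p.T) →
        Real.exp (3 / 2 * p.T) ≤ p.D) ∧ ¬ Big q.1.2 q.2.2 δ p := by
    intro q
    by_cases hq : q.1.1 ≠ 0 ∧ q.1.2 ≠ 0 ∧ q.2.1 ≠ 0 ∧ q.2.2 ≠ 0
    · have f : Fix q.1.1 q.1.2 q.2.1 q.2.2 B δ := ⟨hq.1, hq.2.1, hq.2.2.1, hq.2.2.2, hB, hδ⟩
      obtain ⟨t0, h0⟩ := caseA (S := S) f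
      obtain ⟨t1, h1⟩ := caseC (S := S) f
      refine ⟨max t0 t1, fun p _ _ _ _ hp ht => ⟨fun hR hD => ?_, fun hbig => ?_⟩⟩
      · exact exact f hp (h0 p hp hR hD ((le_max_left _ _).trans ht))
      · have := h1 p hp hbig
        linarith [(le_max_right t0 t1).trans ht]
    · exact ⟨0, fun p g1 g2 g3 g4 _ => absurd ⟨g1, g2, g3, g4⟩ hq⟩
  choose t ht using hex
  set F : Finset ((ℤ × ℤ) × ℕ × ℕ) :=
    (Finset.Icc (-(H : ℤ)) H ×ˢ Finset.Icc (-(H : ℤ)) H) ×ˢ (CF S ×ˢ CF S) with hF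
  refine ⟨1 + ∑ q ∈ F, |t q|, by positivity, ?_⟩
  intro a h k₁ k₂ p ha hh hk1 hk2 haH hhH hm1 hm2 hp htp
  have h2 : ((a, h), (k₁, k₂)) ∈ F := by
    rw [hF]
    simp only [mem_product, mem_Icc]
    exact ⟨⟨abs_le.1 haH, abs_le.1 hhH⟩, hm1, hm2⟩
  have h3 : |t ((a, h), (k₁, k₂))| ≤ ∑ q ∈ F, |t q| :=
    Finset.single_le_sum (f := fun q => |t q|) (fun _ _ => abs_nonneg _) h2
  have h4 := le_abs_self (t ((a, h), (k₁, k₂)))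
  exact ht ((a, h), (k₁, k₂)) p ha hh hk1 hk2 hp (by linarith)

/-- the construction of an `Ok` point, for positive `y` -/
lemma mk {S : Finset ℕ} {H : ℕ} {B δ : ℝ} {t : ℝ}
    (ht : ∀ (a h : ℤ) (k₁ k₂ : ℕ) (p : Pt), a ≠ 0 → h ≠ 0 → k₁ ≠ 0 → k₂ ≠ 0 →
      |a| ≤ H → |h| ≤ H → k₁ ∈ CF S → k₂ ∈ CF S → Ok S a h k₁ k₂ B p → t ≤ p.T →
      (|p.R h k₂| ≤ Real.exp ((1 / 2 - δ) * p.T) → p.D ≤ Real.exp ((2 - δ) * p.T) →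
        Real.exp (3 / 2 * p.T) ≤ p.D) ∧ ¬ Big h k₂ δ p)
    {x y a h r : ℤ} {u₁ u₂ n : ℕ} (hne : y ^ 2 ≠ x ^ 3) (hy : 0 < y) (ha : a ≠ 0) (hh : h ≠ 0)
    (haH : |a| ≤ H) (hhH : |h| ≤ H) (hu1 : Smooth S u₁) (hu2 : Smooth S u₂) (hn : Smooth S n)
    (hb1 : (u₁ : ℝ) ≤ (x : ℝ) ^ B) (hb2 : (u₂ : ℝ) ≤ (x : ℝ) ^ B)
    (heq : h * u₂ * y = a * u₁ + n * r) (hx16 : 16 ≤ x) (hxt : Real.exp t ≤ x)
    (hD2 : |(y : ℝ) ^ 2 - (x : ℝ) ^ 3| ≤ (x : ℝ) ^ 2)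
    (hR4 : |(n : ℝ) * r / (h * u₂)| ≤ (x : ℝ) ^ (3 / 4 : ℝ)) :
    (|(n : ℝ) * r / (h * u₂)| ≤ (x : ℝ) ^ (1 / 2 - δ) → |(y : ℝ) ^ 2 - (x : ℝ) ^ 3| ≤ (x : ℝ) ^ (2 - δ) →
      (x : ℝ) ^ (3 / 2 : ℝ) ≤ |(y : ℝ) ^ 2 - (x : ℝ) ^ 3|) ∧
    ¬ (|(r : ℝ)| * |(n : ℝ) * r / (h * u₂)| ^ 5 ≤ (x : ℝ) ^ (9 / 2 - δ) ∧
      |(r : ℝ)| * ((n : ℝ) * r / (h * u₂)) ^ 2 * |(y : ℝ) ^ 2 - (x : ℝ) ^ 3| ≤ (x : ℝ) ^ (3 - δ) ∧
      |(y : ℝ) ^ 2 - (x : ℝ) ^ 3| ≤ (x : ℝ) ^ (-δ) * ((n : ℝ) * r / (h * u₂)) ^ 2 ∧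
      |(n : ℝ) * r / (h * u₂)| ≤ (x : ℝ) ^ (3 / 4 - δ)) := by
  obtain ⟨k₁, w₁, g1, g2, g3, g4, g5⟩ := cube_decomp hu1
  obtain ⟨k₂, w₂, f1, f2, f3, f4, f5⟩ := cube_decomp hu2
  have hxr : (16 : ℝ) ≤ (x : ℝ) := by exact_mod_cast hx16
  have hx0 : (0 : ℝ) < x := by linarith
  have hR : (⟨x, y, r, w₁, w₂, n⟩ : Pt).R h k₂ = (n : ℝ) * r / (h * u₂) := by
    show (n : ℝ) * r / (h * k₂ * (w₂ : ℝ) ^ 3) = _
    rw [f4]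
    push_cast
    congr 1
    ring
  have hok : Ok S a h k₁ k₂ B ⟨x, y, r, w₁, w₂, n⟩ := by
    constructor
    · exact g3
    · exact f3
    · exact hn
    · refine le_trans ?_ hb1
      show (w₁ : ℝ) ≤ u₁
      exact_mod_cast g5
    · refine le_trans ?_ hb2
      show (w₂ : ℝ) ≤ u₂
      exact_mod_cast f5
    · show h * (k₂ : ℤ) * (w₂ : ℤ) ^ 3 * y = a * k₁ * w₁ ^ 3 + n * r
      rw [g4, f4] at heq
      push_cast at heq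
      linarith
    · exact hx16
    · exact hy
    · exact hne
    · exact hD2
    · rw [hR]
      exact hR4
  have hT : (⟨x, y, r, w₁, w₂, n⟩ : Pt).T = Real.log x := rfl
  have hDd : (⟨x, y, r, w₁, w₂, n⟩ : Pt).D = |(y : ℝ) ^ 2 - (x : ℝ) ^ 3| := rfl
  have hexp : ∀ c : ℝ, Real.exp (c * Real.log x) = (x : ℝ) ^ c := fun c => by
    rw [Real.rpow_def_of_pos hx0, mul_comm]
  have h1 := ht a h k₁ k₂ _ ha hh g2 f2 haH hhH g1 f1 hok (by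
    rw [hT, Real.le_log_iff_exp_le hx0]
    exact hxt)
  rw [hR, hT, hDd] at h1
  obtain ⟨h2, h3⟩ := h1
  rw [hexp, hexp, hexp] at h2
  refine ⟨h2, fun hbig => h3 ⟨?_, ?_, ?_, ?_⟩⟩
  · rw [hR, hT, hexp]
    exact hbig.1
  · rw [hR, hT, hexp, hDd]
    exact hbig.2.1
  · rw [hR, hT, hDd, ← neg_mul, hexp]
    exact hbig.2.2.1
  · rw [hR, hT, hexp]
    exact hbig.2.2.2

/-- change of signs -/
lemma signs {H : ℕ} {x y a h r : ℤ} {u₁ u₂ n : ℕ} (hne : y ^ 2 ≠ x ^ 3) (hy : y ≠ 0)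
    (ha : a ≠ 0) (haH : |a| ≤ H) (heq : h * u₂ * y = a * u₁ + n * r) :
    ∃ y' a' r' : ℤ, y' ^ 2 ≠ x ^ 3 ∧ 0 < y' ∧ a' ≠ 0 ∧ |a'| ≤ H ∧ h * u₂ * y' = a' * u₁ + n * r' ∧
      (y' : ℝ) ^ 2 = (y : ℝ) ^ 2 ∧ |(r' : ℝ)| = |(r : ℝ)| := by
  rcases lt_or_gt_of_ne hy with h0 | h0
  · refine ⟨-y, -a, -r, ?_, by omega, neg_ne_zero.2 ha, ?_, ?_, ?_, ?_⟩
    · rw [neg_sq]; exact hne
    · rw [abs_neg]; exact haH
    · linear_combination -heq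
    · push_cast; ring
    · push_cast; exact abs_neg _
  · exact ⟨y, a, r, hne, h0, ha, haH, heq, rfl, rfl⟩

/-- **small remainders** -/
theorem ord_small (S : Finset ℕ) (H : ℕ) (B δ : ℝ) (hB : 0 ≤ B) (hδ : 0 < δ) :
    ∃ C : ℝ, 0 < C ∧ ∀ (x y a h r : ℤ) (u₁ u₂ n : ℕ), y ^ 2 ≠ x ^ 3 → a ≠ 0 → h ≠ 0 →
      |a| ≤ H → |h| ≤ H → Smooth S u₁ → Smooth S u₂ → Smooth S n →
      (u₁ : ℝ) ≤ |(x : ℝ)| ^ B → (u₂ : ℝ) ≤ |(x : ℝ)| ^ B →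
      h * u₂ * y = a * u₁ + n * r → (n : ℝ) * |(r : ℝ)| ≤ u₂ * |(x : ℝ)| ^ (1 / 2 - δ) →
      |(x : ℝ)| ^ (3 / 2 : ℝ) ≤ C * |(y : ℝ) ^ 2 - (x : ℝ) ^ 3| := by
  obtain ⟨δ₁, hδ₁⟩ : ∃ δ₁, δ₁ = min δ (1 / 2) := ⟨_, rfl⟩
  have g0 : 0 < δ₁ := by rw [hδ₁]; exact lt_min hδ (by norm_num)
  have g1 : δ₁ ≤ δ := by rw [hδ₁]; exact min_le_left _ _
  have g2 : δ₁ ≤ 1 / 2 := by rw [hδ₁]; exact min_le_right _ _
  obtain ⟨t, ht0, ht⟩ := bounded S H B δ₁ hB g0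
  obtain ⟨t', ht'⟩ : ∃ t', t' = t + Real.log 16 := ⟨_, rfl⟩
  have hl16 : 0 ≤ Real.log 16 := Real.log_nonneg (by norm_num)
  refine ⟨Real.exp (2 * t') + 16, by positivity, ?_⟩
  intro x y a h r u₁ u₂ n hne ha hh haH hhH hu1 hu2 hn hb1 hb2 heq hc1
  refine triv hne (int_rpow_le (by norm_num)) fun hx4 hxt => ?_
  have hxr : (4 : ℝ) ≤ (x : ℝ) := by exact_mod_cast hx4
  have hxa : |(x : ℝ)| = (x : ℝ) := abs_of_pos (by linarith)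
  have hx1 : (1 : ℝ) ≤ x := by linarith
  have hx0 : (0 : ℝ) < x := by linarith
  have hx16 : (16 : ℝ) ≤ x := by
    calc (16 : ℝ) = Real.exp (Real.log 16) := (Real.exp_log (by norm_num)).symm
      _ ≤ Real.exp t' := Real.exp_le_exp.2 (by rw [ht']; linarith)
      _ ≤ x := hxt
  have hxt2 : Real.exp t ≤ x := (Real.exp_le_exp.2 (by rw [ht']; linarith)).trans hxt
  rw [hxa] at hb1 hb2 hc1 ⊢
  by_contra hcon
  push Not at hcon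
  have hy0 : y ≠ 0 := by
    intro h0
    rw [h0] at hcon
    push_cast at hcon
    have h1 : |(0 : ℝ) ^ 2 - (x : ℝ) ^ 3| = (x : ℝ) ^ 3 := by
      rw [zero_pow (by norm_num), zero_sub, abs_neg, abs_of_pos (by positivity)]
    rw [h1] at hcon
    have h2 : (x : ℝ) ^ (3 / 2 : ℝ) ≤ (x : ℝ) ^ (3 : ℝ) :=
      Real.rpow_le_rpow_of_exponent_le hx1 (by norm_num)
    rw [show (3 : ℝ) = ((3 : ℕ) : ℝ) by norm_num, Real.rpow_natCast] at h2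
    norm_num at h2
    linarith
  obtain ⟨y', a', r', i1, i2, i3, i4, i5, i6, i7⟩ := signs (H := H) hne hy0 ha haH heq
  rw [← i6] at hcon
  rw [← i7] at hc1
  have hu2p : (0 : ℝ) < u₂ := by exact_mod_cast Nat.pos_of_ne_zero hu2.1
  have hh1 : (1 : ℝ) ≤ |(h : ℝ)| := by
    have : 1 ≤ |h| := Int.one_le_abs hh
    exact_mod_cast this
  have hR : |(n : ℝ) * r' / (h * u₂)| ≤ (x : ℝ) ^ (1 / 2 - δ) := by
    rw [abs_div, abs_mul, abs_mul, Nat.abs_cast, Nat.abs_cast, div_le_iff₀ (by positivity)]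
    calc (n : ℝ) * |(r' : ℝ)| ≤ u₂ * (x : ℝ) ^ (1 / 2 - δ) := hc1
      _ = (x : ℝ) ^ (1 / 2 - δ) * (1 * u₂) := by ring
      _ ≤ _ := by gcongr
  have h1 := mk (δ := δ₁) ht i1 i2 i3 hh i4 hhH hu1 hu2 hn hb1 hb2 i5 (by exact_mod_cast hx16) hxt2
    (by
      refine hcon.le.trans ?_
      calc (x : ℝ) ^ (3 / 2 : ℝ) ≤ (x : ℝ) ^ (2 : ℝ) := Real.rpow_le_rpow_of_exponent_le hx1 (by norm_num)
        _ = (x : ℝ) ^ 2 := by rw [show (2 : ℝ) = ((2 : ℕ) : ℝ) by norm_num, Real.rpow_natCast])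
    (hR.trans (Real.rpow_le_rpow_of_exponent_le hx1 (by linarith)))
  have h2 := h1.1 (hR.trans (Real.rpow_le_rpow_of_exponent_le hx1 (by linarith)))
    (hcon.le.trans (Real.rpow_le_rpow_of_exponent_le hx1 (by linarith)))
  linarith

/-- **large remainders** -/
theorem ord_big (S : Finset ℕ) (H : ℕ) (B δ : ℝ) (hB : 0 ≤ B) (hδ : 0 < δ) :
    ∃ C : ℝ, 0 < C ∧ ∀ (x y a h r : ℤ) (u₁ u₂ n : ℕ), y ^ 2 ≠ x ^ 3 → a ≠ 0 → h ≠ 0 → r ≠ 0 →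
      |a| ≤ H → |h| ≤ H → Smooth S u₁ → Smooth S u₂ → Smooth S n →
      (u₁ : ℝ) ≤ |(x : ℝ)| ^ B → (u₂ : ℝ) ≤ |(x : ℝ)| ^ B → h * u₂ * y = a * u₁ + n * r →
      (n : ℝ) * |(r : ℝ)| ≤ u₂ * |(x : ℝ)| ^ (3 / 4 - δ) →
      |(r : ℝ)| * ((n : ℝ) * |(r : ℝ)| / u₂) ^ 5 ≤ |(x : ℝ)| ^ (9 / 2 - δ) →
      |(x : ℝ)| ^ (-δ) * min |(x : ℝ)| (|(x : ℝ)| ^ 3 / (|(r : ℝ)| * ((n : ℝ) * |(r : ℝ)| / u₂) ^ 2)) ≤
        C * |(y : ℝ) ^ 2 - (x : ℝ) ^ 3| := by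
  obtain ⟨t, ht0, ht⟩ := bounded S H B (δ / 4) hB (by linarith)
  obtain ⟨t', ht'⟩ : ∃ t', t' = t + Real.log 16 := ⟨_, rfl⟩
  have hl16 : 0 ≤ Real.log 16 := Real.log_nonneg (by norm_num)
  refine ⟨Real.exp (2 * t') + 16, by positivity, ?_⟩
  intro x y a h r u₁ u₂ n hne ha hh hr haH hhH hu1 hu2 hn hb1 hb2 heq hc1 hc2
  refine triv hne ?_ fun hx4 hxt => ?_
  · by_cases hx0 : x = 0
    · rw [hx0]
      push_cast
      rw [abs_zero, Real.zero_rpow (by linarith), zero_mul]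
      positivity
    · have hx1 : (1 : ℝ) ≤ |(x : ℝ)| := by
        have : 1 ≤ |x| := Int.one_le_abs hx0
        exact_mod_cast this
      calc |(x : ℝ)| ^ (-δ) * min |(x : ℝ)| (|(x : ℝ)| ^ 3 / (|(r : ℝ)| * ((n : ℝ) * |(r : ℝ)| / u₂) ^ 2))
          ≤ 1 * |(x : ℝ)| := by
            gcongr
            · exact Real.rpow_le_one_of_one_le_of_nonpos hx1 (by linarith)
            · exact min_le_left _ _
        _ ≤ _ := by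
            rw [max_eq_right hx1, one_mul]
            nlinarith
  have hxr : (4 : ℝ) ≤ (x : ℝ) := by exact_mod_cast hx4
  have hxa : |(x : ℝ)| = (x : ℝ) := abs_of_pos (by linarith)
  have hx1 : (1 : ℝ) ≤ x := by linarith
  have hx0 : (0 : ℝ) < x := by linarith
  have hx16 : (16 : ℝ) ≤ x := by
    calc (16 : ℝ) = Real.exp (Real.log 16) := (Real.exp_log (by norm_num)).symm
      _ ≤ Real.exp t' := Real.exp_le_exp.2 (by rw [ht']; linarith)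
      _ ≤ x := hxt
  have hxt2 : Real.exp t ≤ x := (Real.exp_le_exp.2 (by rw [ht']; linarith)).trans hxt
  rw [hxa] at hb1 hb2 hc1 hc2 ⊢
  by_contra hcon
  push Not at hcon
  have hu2p : (0 : ℝ) < u₂ := by exact_mod_cast Nat.pos_of_ne_zero hu2.1
  have hnp : (0 : ℝ) < n := by exact_mod_cast Nat.pos_of_ne_zero hn.1
  have hh1 : (1 : ℝ) ≤ |(h : ℝ)| := by
    have : 1 ≤ |h| := Int.one_le_abs hh
    exact_mod_cast this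
  have hr1 : (1 : ℝ) ≤ |(r : ℝ)| := by
    have : 1 ≤ |r| := Int.one_le_abs hr
    exact_mod_cast this
  obtain ⟨ρ, hρ⟩ : ∃ ρ, ρ = (n : ℝ) * |(r : ℝ)| / u₂ := ⟨_, rfl⟩
  have hρ0 : 0 < ρ := by rw [hρ]; positivity
  rw [← hρ] at hcon hc2
  have hdA : |(y : ℝ) ^ 2 - (x : ℝ) ^ 3| ≤ (x : ℝ) ^ (1 - δ) := by
    refine hcon.le.trans ?_
    calc (x : ℝ) ^ (-δ) * min (x : ℝ) ((x : ℝ) ^ 3 / (|(r : ℝ)| * ρ ^ 2)) ≤ (x : ℝ) ^ (-δ) * x := by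
          gcongr
          exact min_le_left _ _
      _ = (x : ℝ) ^ (-δ) * (x : ℝ) ^ (1 : ℝ) := by rw [Real.rpow_one]
      _ = _ := by
          rw [← Real.rpow_add hx0]
          congr 1
          ring
  have hdB : |(r : ℝ)| * ρ ^ 2 * |(y : ℝ) ^ 2 - (x : ℝ) ^ 3| ≤ (x : ℝ) ^ (3 - δ) := by
    have h1 : |(y : ℝ) ^ 2 - (x : ℝ) ^ 3| ≤ (x : ℝ) ^ (-δ) * ((x : ℝ) ^ 3 / (|(r : ℝ)| * ρ ^ 2)) :=
      hcon.le.trans (by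
        gcongr
        exact min_le_right _ _)
    calc |(r : ℝ)| * ρ ^ 2 * |(y : ℝ) ^ 2 - (x : ℝ) ^ 3| ≤
        |(r : ℝ)| * ρ ^ 2 * ((x : ℝ) ^ (-δ) * ((x : ℝ) ^ 3 / (|(r : ℝ)| * ρ ^ 2))) := by gcongr
      _ = (x : ℝ) ^ (-δ) * (x : ℝ) ^ 3 := by field_simp
      _ = (x : ℝ) ^ (-δ) * (x : ℝ) ^ (3 : ℝ) := by
          rw [show (3 : ℝ) = ((3 : ℕ) : ℝ) by norm_num, Real.rpow_natCast]
      _ = _ := by
          rw [← Real.rpow_add hx0]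
          congr 1
          ring
  have hy0 : y ≠ 0 := by
    intro h0
    rw [h0] at hdA
    push_cast at hdA
    have h1 : |(0 : ℝ) ^ 2 - (x : ℝ) ^ 3| = (x : ℝ) ^ 3 := by
      rw [zero_pow (by norm_num), zero_sub, abs_neg, abs_of_pos (by positivity)]
    rw [h1] at hdA
    have h2 : (x : ℝ) ^ (1 - δ) < (x : ℝ) ^ (3 : ℝ) :=
      Real.rpow_lt_rpow_of_exponent_lt (by linarith) (by linarith)
    rw [show (x : ℝ) ^ (3 : ℝ) = (x : ℝ) ^ 3 by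
      rw [show (3 : ℝ) = ((3 : ℕ) : ℝ) by norm_num, Real.rpow_natCast]] at h2
    linarith
  obtain ⟨y', a', r', i1, i2, i3, i4, i5, i6, i7⟩ := signs (H := H) hne hy0 ha haH heq
  rw [← i6] at hdA hdB
  rw [← i7] at hdB hc1 hc2 hρ
  have hRρ : |(n : ℝ) * r' / (h * u₂)| ≤ ρ := by
    rw [hρ, abs_div, abs_mul, abs_mul, Nat.abs_cast, Nat.abs_cast, div_le_div_iff₀ (by positivity) hu2p]
    calc (n : ℝ) * |(r' : ℝ)| * u₂ = (n : ℝ) * |(r' : ℝ)| * (1 * u₂) := by ring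
      _ ≤ _ := by gcongr
  have hρ1 : ρ ≤ (x : ℝ) ^ (3 / 4 - δ) := by
    rw [hρ, div_le_iff₀ hu2p, mul_comm _ (u₂ : ℝ)]
    exact hc1
  have hRsq : ((n : ℝ) * r' / (h * u₂)) ^ 2 ≤ ρ ^ 2 := by
    rw [← sq_abs]
    exact pow_le_pow_left₀ (abs_nonneg _) hRρ 2
  have h1 := mk (δ := δ / 4) ht i1 i2 i3 hh i4 hhH hu1 hu2 hn hb1 hb2 i5 (by exact_mod_cast hx16) hxt2
    (by
      refine hdA.trans ?_
      calc (x : ℝ) ^ (1 - δ) ≤ (x : ℝ) ^ (2 : ℝ) := Real.rpow_le_rpow_of_exponent_le hx1 (by linarith)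
        _ = (x : ℝ) ^ 2 := by rw [show (2 : ℝ) = ((2 : ℕ) : ℝ) by norm_num, Real.rpow_natCast])
    (hRρ.trans (hρ1.trans (Real.rpow_le_rpow_of_exponent_le hx1 (by linarith))))
  rcases le_or_gt |(n : ℝ) * r' / (h * u₂)| ((x : ℝ) ^ (1 / 2 - δ / 4)) with h2 | h2
  · have h3 := h1.1 h2 (hdA.trans (Real.rpow_le_rpow_of_exponent_le hx1 (by linarith)))
    have h4 : (x : ℝ) ^ (1 - δ) < (x : ℝ) ^ (3 / 2 : ℝ) :=
      Real.rpow_lt_rpow_of_exponent_lt (by linarith) (by linarith)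
    linarith
  · refine h1.2 ⟨?_, ?_, ?_, ?_⟩
    · calc |(r' : ℝ)| * |(n : ℝ) * r' / (h * u₂)| ^ 5 ≤ |(r' : ℝ)| * ρ ^ 5 := by gcongr
        _ ≤ (x : ℝ) ^ (9 / 2 - δ) := hc2
        _ ≤ _ := Real.rpow_le_rpow_of_exponent_le hx1 (by linarith)
    · calc |(r' : ℝ)| * ((n : ℝ) * r' / (h * u₂)) ^ 2 * |(y' : ℝ) ^ 2 - (x : ℝ) ^ 3| ≤
          |(r' : ℝ)| * ρ ^ 2 * |(y' : ℝ) ^ 2 - (x : ℝ) ^ 3| := by gcongr
        _ ≤ (x : ℝ) ^ (3 - δ) := hdB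
        _ ≤ _ := Real.rpow_le_rpow_of_exponent_le hx1 (by linarith)
    · calc |(y' : ℝ) ^ 2 - (x : ℝ) ^ 3| ≤ (x : ℝ) ^ (1 - δ) := hdA
        _ ≤ (x : ℝ) ^ (-(δ / 4) + ((1 / 2 - δ / 4) + (1 / 2 - δ / 4))) :=
            Real.rpow_le_rpow_of_exponent_le hx1 (by linarith)
        _ = (x : ℝ) ^ (-(δ / 4)) * ((x : ℝ) ^ (1 / 2 - δ / 4)) ^ 2 := by
            rw [Real.rpow_add hx0, Real.rpow_add hx0, sq]
        _ ≤ (x : ℝ) ^ (-(δ / 4)) * |(n : ℝ) * r' / (h * u₂)| ^ 2 := by gcongr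
        _ = _ := by rw [sq_abs]
    · exact hRρ.trans (hρ1.trans (Real.rpow_le_rpow_of_exponent_le hx1 (by linarith)))

end Pool.Agent.Zk43.HO
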