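import Mathlib
import Pool.Agent.Zk43.HO.Win

/-!
# Integral points of Mordell curves with ordinate near an `S`-unit: corollaries
-/

set_option autoImplicit false

open Finset Filter Topology

namespace Pool.Agent.Zk43.HO

open Pool.Agent.Zk43.HS (Smooth triv triv2 int_rpow_le ev_rpow)

/-- the sizes of `x` and `y` -/
lemma y_le {x y : ℤ} (hx1 : 1 ≤ |(x : ℝ)|) (hD : |(y : ℝ) ^ 2 - (x : ℝ) ^ 3| ≤ |(x : ℝ)| ^ 2) :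
    |(y : ℝ)| ≤ 2 * |(x : ℝ)| ^ (3 / 2 : ℝ) := by
  have hx0 : 0 < |(x : ℝ)| := by linarith
  rw [← sq_le_sq₀ (abs_nonneg _) (by positivity), mul_pow, ← Real.rpow_natCast (|(x : ℝ)| ^ (3 / 2 : ℝ)),
    ← Real.rpow_mul hx0.le, sq_abs]
  have h1 : |(x : ℝ)| ^ ((3 / 2 : ℝ) * ((2 : ℕ) : ℝ)) = |(x : ℝ)| ^ 3 := by
    rw [show (3 / 2 : ℝ) * ((2 : ℕ) : ℝ) = ((3 : ℕ) : ℝ) by norm_num, Real.rpow_natCast]
  rw [h1]
  have h2 := (abs_le.1 hD).2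
  have h3 : (x : ℝ) ^ 3 ≤ |(x : ℝ)| ^ 3 := by
    rw [← abs_pow]
    exact le_abs_self _
  have h4 : |(x : ℝ)| ^ 2 ≤ |(x : ℝ)| ^ 3 := pow_le_pow_right₀ hx1 (by norm_num)
  have h5 : 0 ≤ |(x : ℝ)| ^ 3 := by positivity
  nlinarith

lemma y_ge {x y : ℤ} (hx1 : 2 ≤ |(x : ℝ)|) (hD : |(y : ℝ) ^ 2 - (x : ℝ) ^ 3| ≤ |(x : ℝ)| ^ 2) :
    |(x : ℝ)| ≤ |(y : ℝ)| := by
  have hx0 : 0 < |(x : ℝ)| := by linarith
  have h2 := abs_le.1 hD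
  rcases le_or_gt 0 (x : ℝ) with h | h
  · rw [abs_of_nonneg h] at *
    rw [← sq_le_sq₀ h (abs_nonneg _), sq_abs]
    nlinarith [h2.1]
  · exfalso
    rw [abs_of_neg h] at *
    nlinarith [h2.2, sq_nonneg (y : ℝ)]

lemma y_zero {x y : ℤ} (hy : y = 0) {c : ℝ} (hc : c ≤ 3) (hx1 : 1 ≤ |(x : ℝ)|) :
    |(x : ℝ)| ^ c ≤ |(y : ℝ) ^ 2 - (x : ℝ) ^ 3| := by
  rw [hy]
  push_cast
  rw [zero_pow (by norm_num), zero_sub, abs_neg, abs_pow]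
  calc |(x : ℝ)| ^ c ≤ |(x : ℝ)| ^ (3 : ℝ) := Real.rpow_le_rpow_of_exponent_le hx1 hc
    _ = |(x : ℝ)| ^ 3 := by rw [show (3 : ℝ) = ((3 : ℕ) : ℝ) by norm_num, Real.rpow_natCast]

lemma big_D {x y : ℤ} {c : ℝ} (hc : c ≤ 2) (hx1 : 1 ≤ |(x : ℝ)|)
    (hD : |(x : ℝ)| ^ 2 < |(y : ℝ) ^ 2 - (x : ℝ) ^ 3|) : |(x : ℝ)| ^ c ≤ |(y : ℝ) ^ 2 - (x : ℝ) ^ 3| := by
  calc |(x : ℝ)| ^ c ≤ |(x : ℝ)| ^ (2 : ℝ) := Real.rpow_le_rpow_of_exponent_le hx1 hc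
    _ = |(x : ℝ)| ^ 2 := by rw [show (2 : ℝ) = ((2 : ℕ) : ℝ) by norm_num, Real.rpow_natCast]
    _ ≤ _ := hD.le

/-- the size of the `S`-unit -/
lemma unit_le {H : ℕ} {x y a h : ℤ} {u : ℕ} {e : ℝ} (he : e ≤ 1) (ha : a ≠ 0) (hhH : |h| ≤ H)
    (hx1 : 1 ≤ |(x : ℝ)|) (hy1 : 1 ≤ |(y : ℝ)|) (hyx : |(y : ℝ)| ≤ 2 * |(x : ℝ)| ^ (3 / 2 : ℝ))
    (hx : 2 * ((H : ℝ) + 1) ≤ |(x : ℝ)| ^ (1 / 2 : ℝ))
    (hr : |((h * y - a * u : ℤ) : ℝ)| ≤ |(y : ℝ)| ^ e) : (u : ℝ) ≤ |(x : ℝ)| ^ (2 : ℝ) := by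
  have hx0 : 0 < |(x : ℝ)| := by linarith
  have ha1 : (1 : ℝ) ≤ |(a : ℝ)| := by
    have : 1 ≤ |a| := Int.one_le_abs ha
    exact_mod_cast this
  have hh1 : |(h : ℝ)| ≤ H := by exact_mod_cast hhH
  have h1 : |(y : ℝ)| ^ e ≤ |(y : ℝ)| := by
    calc |(y : ℝ)| ^ e ≤ |(y : ℝ)| ^ (1 : ℝ) := Real.rpow_le_rpow_of_exponent_le hy1 he
      _ = _ := Real.rpow_one _
  have h2 : (u : ℝ) ≤ |(a : ℝ) * u| := by
    rw [abs_mul, Nat.abs_cast]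
    exact le_mul_of_one_le_left (Nat.cast_nonneg _) ha1
  have h3 : |(a : ℝ) * u| ≤ |(h : ℝ) * y| + |((h * y - a * u : ℤ) : ℝ)| := by
    push_cast
    have : (a : ℝ) * u = h * y - (h * y - a * u) := by ring
    calc |(a : ℝ) * u| = |(h : ℝ) * y - (h * y - a * u)| := by rw [← this]
      _ ≤ _ := abs_sub _ _
  have h4 : |(h : ℝ) * y| ≤ H * |(y : ℝ)| := by
    rw [abs_mul]
    gcongr
  calc (u : ℝ) ≤ H * |(y : ℝ)| + |(y : ℝ)| := by linarith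
    _ = (H + 1) * |(y : ℝ)| := by ring
    _ ≤ (H + 1) * (2 * |(x : ℝ)| ^ (3 / 2 : ℝ)) := by gcongr
    _ = (2 * (H + 1)) * |(x : ℝ)| ^ (3 / 2 : ℝ) := by ring
    _ ≤ |(x : ℝ)| ^ (1 / 2 : ℝ) * |(x : ℝ)| ^ (3 / 2 : ℝ) := by gcongr
    _ = _ := by
        rw [← Real.rpow_add hx0]
        norm_num

/-- powers of `|y|` -/
lemma y_rpow {x y : ℤ} {c e : ℝ} (hx1 : 1 ≤ |(x : ℝ)|) (hy1 : 1 ≤ |(y : ℝ)|)
    (hyx : |(y : ℝ)| ≤ 2 * |(x : ℝ)| ^ (3 / 2 : ℝ)) (h0 : 0 ≤ e) (h1 : e ≤ 1) (hc : c ≤ e) :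
    |(y : ℝ)| ^ c ≤ 2 * |(x : ℝ)| ^ (3 / 2 * e) := by
  have hx0 : 0 < |(x : ℝ)| := by linarith
  calc |(y : ℝ)| ^ c ≤ |(y : ℝ)| ^ e := Real.rpow_le_rpow_of_exponent_le hy1 hc
    _ ≤ (2 * |(x : ℝ)| ^ (3 / 2 : ℝ)) ^ e := Real.rpow_le_rpow (by positivity) hyx h0
    _ = 2 ^ e * |(x : ℝ)| ^ (3 / 2 * e) := by
        rw [Real.mul_rpow (by norm_num) (by positivity), ← Real.rpow_mul hx0.le]
    _ ≤ 2 ^ (1 : ℝ) * |(x : ℝ)| ^ (3 / 2 * e) := by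
        gcongr
        · norm_num
    _ = _ := by rw [Real.rpow_one]

/-- **windows of length `|y| ^ (1 / 2 - δ)`** -/
theorem ord_half (S : Finset ℕ) (H : ℕ) (δ : ℝ) (hδ : 0 < δ) :
    ∃ C : ℝ, 0 < C ∧ ∀ (x y a h : ℤ) (u : ℕ), y ^ 2 ≠ x ^ 3 → a ≠ 0 → h ≠ 0 → |a| ≤ H → |h| ≤ H →
      Smooth S u → |((h * y - a * u : ℤ) : ℝ)| ≤ |(y : ℝ)| ^ (1 / 2 - δ) →
      |(x : ℝ)| ^ (3 / 4 : ℝ) ≤ C * |(y : ℝ) ^ 2 - (x : ℝ) ^ 3| := by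
  obtain ⟨γ, hγ⟩ : ∃ γ, γ = min δ (1 / 4) := ⟨_, rfl⟩
  have hγ0 : 0 < γ := by rw [hγ]; exact lt_min hδ (by norm_num)
  have hγ1 : γ ≤ 1 / 4 := by rw [hγ]; exact min_le_right _ _
  have hγ2 : γ ≤ δ := by rw [hγ]; exact min_le_left _ _
  obtain ⟨C₁, hC1, h1⟩ := ord_small S H 2 γ (by norm_num) hγ0
  obtain ⟨C₂, hC2, h2⟩ := ord_big S H 2 γ (by norm_num) hγ0
  obtain ⟨X₁, hX₁⟩ := ev_rpow (2 * ((H : ℝ) + 1)) (by norm_num : (0 : ℝ) < 1 / 2)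
  obtain ⟨X₂, hX₂⟩ := ev_rpow 2 (by linarith : 0 < γ / 2)
  obtain ⟨X₀, hX₀⟩ : ∃ X₀, X₀ = max X₁ X₂ := ⟨_, rfl⟩
  refine ⟨(C₁ + C₂ + 1) + X₀ ^ 2 + 1, by positivity, ?_⟩
  intro x y a h u hne ha hh haH hhH hu hr
  refine triv2 hne (by positivity) (int_rpow_le (by norm_num)) fun hx1 hx => ?_
  have hx0 : 0 < |(x : ℝ)| := by linarith
  have e1 := hX₁ |(x : ℝ)| ((le_max_left _ _).trans (hX₀ ▸ hx))
  have e2 := hX₂ |(x : ℝ)| ((le_max_right _ _).trans (hX₀ ▸ hx))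
  have hD0 : 0 ≤ |(y : ℝ) ^ 2 - (x : ℝ) ^ 3| := abs_nonneg _
  have hC1' : |(y : ℝ) ^ 2 - (x : ℝ) ^ 3| ≤ (C₁ + C₂ + 1) * |(y : ℝ) ^ 2 - (x : ℝ) ^ 3| :=
    le_mul_of_one_le_left hD0 (by linarith)
  by_cases hy0 : y = 0
  · exact (y_zero hy0 (by norm_num) hx1).trans hC1'
  have hy1 : (1 : ℝ) ≤ |(y : ℝ)| := by
    have : 1 ≤ |y| := Int.one_le_abs hy0
    exact_mod_cast this
  rcases lt_or_ge (|(x : ℝ)| ^ 2) |(y : ℝ) ^ 2 - (x : ℝ) ^ 3| with hD | hD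
  · exact (big_D (by norm_num) hx1 hD).trans hC1'
  have hyx := y_le hx1 hD
  have hu2 := unit_le (by linarith) ha hhH hx1 hy1 hyx e1 hr
  have hr2 : |((h * y - a * u : ℤ) : ℝ)| ≤ |(x : ℝ)| ^ (3 / 4 - γ) := by
    calc |((h * y - a * u : ℤ) : ℝ)| ≤ |(y : ℝ)| ^ (1 / 2 - δ) := hr
      _ ≤ 2 * |(x : ℝ)| ^ (3 / 2 * (1 / 2 - γ)) := y_rpow hx1 hy1 hyx (by linarith) (by linarith) (by linarith)
      _ ≤ |(x : ℝ)| ^ (γ / 2) * |(x : ℝ)| ^ (3 / 2 * (1 / 2 - γ)) := by gcongr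
      _ = _ := by
          rw [← Real.rpow_add hx0]
          congr 1
          ring
  have h1u : ((1 : ℕ) : ℝ) ≤ |(x : ℝ)| ^ (2 : ℝ) := by
    push_cast
    exact Real.one_le_rpow hx1 (by norm_num)
  have heq : h * ((1 : ℕ) : ℤ) * y = a * u + ((1 : ℕ) : ℤ) * (h * y - a * u) := by push_cast; ring
  by_cases hr0 : h * y - a * u = 0
  · have h3 := h1 x y a h (h * y - a * u) u 1 1 hne ha hh haH hhH hu (Smooth.one S) (Smooth.one S) hu2 h1u heq (by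
      rw [hr0]
      push_cast
      rw [abs_zero, mul_zero]
      positivity)
    calc |(x : ℝ)| ^ (3 / 4 : ℝ) ≤ |(x : ℝ)| ^ (3 / 2 : ℝ) :=
          Real.rpow_le_rpow_of_exponent_le hx1 (by norm_num)
      _ ≤ C₁ * |(y : ℝ) ^ 2 - (x : ℝ) ^ 3| := h3
      _ ≤ _ := by gcongr; linarith
  have hr1 : (1 : ℝ) ≤ |((h * y - a * u : ℤ) : ℝ)| := by
    have : 1 ≤ |h * y - a * u| := Int.one_le_abs hr0
    exact_mod_cast this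
  have h3 := h2 x y a h (h * y - a * u) u 1 1 hne ha hh hr0 haH hhH hu (Smooth.one S) (Smooth.one S) hu2 h1u heq
    (by
      rw [Nat.cast_one, one_mul, one_mul]
      exact hr2)
    (by
      rw [Nat.cast_one, one_mul, div_one]
      calc |((h * y - a * u : ℤ) : ℝ)| * |((h * y - a * u : ℤ) : ℝ)| ^ 5 = |((h * y - a * u : ℤ) : ℝ)| ^ 6 := by ring
        _ ≤ (|(x : ℝ)| ^ (3 / 4 - γ)) ^ 6 := pow_le_pow_left₀ (abs_nonneg _) hr2 6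
        _ = |(x : ℝ)| ^ ((3 / 4 - γ) * ((6 : ℕ) : ℝ)) := by rw [← Real.rpow_natCast, ← Real.rpow_mul hx0.le]
        _ ≤ _ := by
            apply Real.rpow_le_rpow_of_exponent_le hx1
            push_cast
            linarith)
  rw [Nat.cast_one, one_mul, div_one] at h3
  set ρ := |((h * y - a * u : ℤ) : ℝ)| with hρ
  have h4 : |(x : ℝ)| ^ (3 / 4 + γ) ≤ min |(x : ℝ)| (|(x : ℝ)| ^ 3 / (ρ * ρ ^ 2)) := by
    refine le_min ?_ ?_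
    · calc |(x : ℝ)| ^ (3 / 4 + γ) ≤ |(x : ℝ)| ^ (1 : ℝ) :=
            Real.rpow_le_rpow_of_exponent_le hx1 (by linarith)
        _ = _ := Real.rpow_one _
    · rw [le_div_iff₀ (by positivity)]
      calc |(x : ℝ)| ^ (3 / 4 + γ) * (ρ * ρ ^ 2) = |(x : ℝ)| ^ (3 / 4 + γ) * ρ ^ 3 := by ring
        _ ≤ |(x : ℝ)| ^ (3 / 4 + γ) * (|(x : ℝ)| ^ (3 / 4 - γ)) ^ 3 := by gcongr
        _ = |(x : ℝ)| ^ ((3 / 4 + γ) + (3 / 4 - γ) * ((3 : ℕ) : ℝ)) := by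
            rw [← Real.rpow_natCast (|(x : ℝ)| ^ (3 / 4 - γ)), ← Real.rpow_mul hx0.le, ← Real.rpow_add hx0]
        _ ≤ |(x : ℝ)| ^ (3 : ℝ) := by
            apply Real.rpow_le_rpow_of_exponent_le hx1
            push_cast
            linarith
        _ = _ := by rw [show (3 : ℝ) = ((3 : ℕ) : ℝ) by norm_num, Real.rpow_natCast]
  calc |(x : ℝ)| ^ (3 / 4 : ℝ) = |(x : ℝ)| ^ (-γ) * |(x : ℝ)| ^ (3 / 4 + γ) := by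
        rw [← Real.rpow_add hx0]
        congr 1
        ring
    _ ≤ |(x : ℝ)| ^ (-γ) * min |(x : ℝ)| (|(x : ℝ)| ^ 3 / (ρ * ρ ^ 2)) := by gcongr
    _ ≤ C₂ * |(y : ℝ) ^ 2 - (x : ℝ) ^ 3| := h3
    _ ≤ _ := by gcongr; linarith

/-- **windows of length `|y| ^ (4 / 9)`** -/
theorem ord_49 (S : Finset ℕ) (H : ℕ) (ε : ℝ) (hε : 0 < ε) :
    ∃ C : ℝ, 0 < C ∧ ∀ (x y a h : ℤ) (u : ℕ), y ^ 2 ≠ x ^ 3 → a ≠ 0 → h ≠ 0 → |a| ≤ H → |h| ≤ H →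
      Smooth S u → |((h * y - a * u : ℤ) : ℝ)| ≤ |(y : ℝ)| ^ (4 / 9 : ℝ) →
      |(x : ℝ)| ^ (1 - ε) ≤ C * |(y : ℝ) ^ 2 - (x : ℝ) ^ 3| := by
  obtain ⟨γ, hγ⟩ : ∃ γ, γ = min ε (1 / 24) := ⟨_, rfl⟩
  have hγ0 : 0 < γ := by rw [hγ]; exact lt_min hε (by norm_num)
  have hγ1 : γ ≤ 1 / 24 := by rw [hγ]; exact min_le_right _ _
  have hγ2 : γ ≤ ε := by rw [hγ]; exact min_le_left _ _
  obtain ⟨C₁, hC1, h1⟩ := ord_small S H 2 γ (by norm_num) hγ0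
  obtain ⟨C₂, hC2, h2⟩ := ord_big S H 2 γ (by norm_num) hγ0
  obtain ⟨X₁, hX₁⟩ := ev_rpow (2 * ((H : ℝ) + 1)) (by norm_num : (0 : ℝ) < 1 / 2)
  obtain ⟨X₂, hX₂⟩ := ev_rpow 2 (by norm_num : (0 : ℝ) < 1 / 24)
  obtain ⟨X₀, hX₀⟩ : ∃ X₀, X₀ = max X₁ X₂ := ⟨_, rfl⟩
  refine ⟨(C₁ + 8 * C₂ + 1) + X₀ ^ 2 + 1, by positivity, ?_⟩
  intro x y a h u hne ha hh haH hhH hu hr
  refine triv2 hne (by positivity) (int_rpow_le (by linarith)) fun hx1 hx => ?_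
  have hx0 : 0 < |(x : ℝ)| := by linarith
  have e1 := hX₁ |(x : ℝ)| ((le_max_left _ _).trans (hX₀ ▸ hx))
  have e2 := hX₂ |(x : ℝ)| ((le_max_right _ _).trans (hX₀ ▸ hx))
  have hD0 : 0 ≤ |(y : ℝ) ^ 2 - (x : ℝ) ^ 3| := abs_nonneg _
  have hC1' : |(y : ℝ) ^ 2 - (x : ℝ) ^ 3| ≤ (C₁ + 8 * C₂ + 1) * |(y : ℝ) ^ 2 - (x : ℝ) ^ 3| :=
    le_mul_of_one_le_left hD0 (by linarith)
  by_cases hy0 : y = 0
  · exact (y_zero hy0 (by linarith) hx1).trans hC1'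
  have hy1 : (1 : ℝ) ≤ |(y : ℝ)| := by
    have : 1 ≤ |y| := Int.one_le_abs hy0
    exact_mod_cast this
  rcases lt_or_ge (|(x : ℝ)| ^ 2) |(y : ℝ) ^ 2 - (x : ℝ) ^ 3| with hD | hD
  · exact (big_D (by linarith) hx1 hD).trans hC1'
  have hyx := y_le hx1 hD
  have hu2 := unit_le (by norm_num) ha hhH hx1 hy1 hyx e1 hr
  have hr3 : |((h * y - a * u : ℤ) : ℝ)| ≤ 2 * |(x : ℝ)| ^ (2 / 3 : ℝ) := by
    calc |((h * y - a * u : ℤ) : ℝ)| ≤ |(y : ℝ)| ^ (4 / 9 : ℝ) := hr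
      _ ≤ 2 * |(x : ℝ)| ^ (3 / 2 * (4 / 9) : ℝ) := y_rpow hx1 hy1 hyx (by norm_num) (by norm_num) le_rfl
      _ = _ := by norm_num
  have hr2 : |((h * y - a * u : ℤ) : ℝ)| ≤ |(x : ℝ)| ^ (3 / 4 - γ) := by
    calc |((h * y - a * u : ℤ) : ℝ)| ≤ 2 * |(x : ℝ)| ^ (2 / 3 : ℝ) := hr3
      _ ≤ |(x : ℝ)| ^ (1 / 24 : ℝ) * |(x : ℝ)| ^ (2 / 3 : ℝ) := by gcongr
      _ = |(x : ℝ)| ^ (17 / 24 : ℝ) := by
          rw [← Real.rpow_add hx0]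
          norm_num
      _ ≤ _ := Real.rpow_le_rpow_of_exponent_le hx1 (by linarith)
  have h1u : ((1 : ℕ) : ℝ) ≤ |(x : ℝ)| ^ (2 : ℝ) := by
    push_cast
    exact Real.one_le_rpow hx1 (by norm_num)
  have heq : h * ((1 : ℕ) : ℤ) * y = a * u + ((1 : ℕ) : ℤ) * (h * y - a * u) := by push_cast; ring
  by_cases hr0 : h * y - a * u = 0
  · have h3 := h1 x y a h (h * y - a * u) u 1 1 hne ha hh haH hhH hu (Smooth.one S) (Smooth.one S) hu2 h1u heq (by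
      rw [hr0]
      push_cast
      rw [abs_zero, mul_zero]
      positivity)
    calc |(x : ℝ)| ^ (1 - ε) ≤ |(x : ℝ)| ^ (3 / 2 : ℝ) :=
          Real.rpow_le_rpow_of_exponent_le hx1 (by linarith)
      _ ≤ C₁ * |(y : ℝ) ^ 2 - (x : ℝ) ^ 3| := h3
      _ ≤ _ := by gcongr; linarith
  have hr1 : (1 : ℝ) ≤ |((h * y - a * u : ℤ) : ℝ)| := by
    have : 1 ≤ |h * y - a * u| := Int.one_le_abs hr0
    exact_mod_cast this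
  have h3 := h2 x y a h (h * y - a * u) u 1 1 hne ha hh hr0 haH hhH hu (Smooth.one S) (Smooth.one S) hu2 h1u heq
    (by
      rw [Nat.cast_one, one_mul, one_mul]
      exact hr2)
    (by
      rw [Nat.cast_one, one_mul, div_one]
      calc |((h * y - a * u : ℤ) : ℝ)| * |((h * y - a * u : ℤ) : ℝ)| ^ 5 = |((h * y - a * u : ℤ) : ℝ)| ^ 6 := by ring
        _ ≤ (|(x : ℝ)| ^ (3 / 4 - γ)) ^ 6 := pow_le_pow_left₀ (abs_nonneg _) hr2 6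
        _ = |(x : ℝ)| ^ ((3 / 4 - γ) * ((6 : ℕ) : ℝ)) := by rw [← Real.rpow_natCast, ← Real.rpow_mul hx0.le]
        _ ≤ _ := by
            apply Real.rpow_le_rpow_of_exponent_le hx1
            push_cast
            linarith)
  rw [Nat.cast_one, one_mul, div_one] at h3
  set ρ := |((h * y - a * u : ℤ) : ℝ)| with hρ
  have h4 : |(x : ℝ)| / 8 ≤ min |(x : ℝ)| (|(x : ℝ)| ^ 3 / (ρ * ρ ^ 2)) := by
    refine le_min (by linarith) ?_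
    rw [div_le_div_iff₀ (by norm_num) (by positivity)]
    have h5 : ρ ^ 3 ≤ 8 * |(x : ℝ)| ^ 2 := by
      calc ρ ^ 3 ≤ (2 * |(x : ℝ)| ^ (2 / 3 : ℝ)) ^ 3 := pow_le_pow_left₀ (abs_nonneg _) hr3 3
        _ = 8 * |(x : ℝ)| ^ 2 := by
            rw [mul_pow, ← Real.rpow_natCast (|(x : ℝ)| ^ (2 / 3 : ℝ)), ← Real.rpow_mul hx0.le]
            rw [show (2 / 3 : ℝ) * ((3 : ℕ) : ℝ) = ((2 : ℕ) : ℝ) by norm_num, Real.rpow_natCast]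
            norm_num
    calc |(x : ℝ)| * (ρ * ρ ^ 2) = |(x : ℝ)| * ρ ^ 3 := by ring
      _ ≤ |(x : ℝ)| * (8 * |(x : ℝ)| ^ 2) := by gcongr
      _ = _ := by ring
  calc |(x : ℝ)| ^ (1 - ε) ≤ |(x : ℝ)| ^ (1 - γ) := Real.rpow_le_rpow_of_exponent_le hx1 (by linarith)
    _ = 8 * (|(x : ℝ)| ^ (-γ) * (|(x : ℝ)| / 8)) := by
        have : |(x : ℝ)| ^ (1 - γ) = |(x : ℝ)| ^ (-γ) * |(x : ℝ)| ^ (1 : ℝ) := by
          rw [← Real.rpow_add hx0]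
          congr 1
          ring
        rw [this, Real.rpow_one]
        ring
    _ ≤ 8 * (|(x : ℝ)| ^ (-γ) * min |(x : ℝ)| (|(x : ℝ)| ^ 3 / (ρ * ρ ^ 2))) := by gcongr
    _ ≤ 8 * (C₂ * |(y : ℝ) ^ 2 - (x : ℝ) ^ 3|) := by gcongr
    _ = (8 * C₂) * |(y : ℝ) ^ 2 - (x : ℝ) ^ 3| := by ring
    _ ≤ _ := by gcongr; linarith

/-- **windows of length `|y| ^ (1 / 3 - δ)` around rational `S`-units** -/
theorem ord_rat (S : Finset ℕ) (H : ℕ) (B δ : ℝ) (hB : 0 ≤ B) (hδ : 0 < δ) :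
    ∃ C : ℝ, 0 < C ∧ ∀ (x y a h : ℤ) (u₁ u₂ : ℕ), y ^ 2 ≠ x ^ 3 → a ≠ 0 → h ≠ 0 → |a| ≤ H → |h| ≤ H →
      Smooth S u₁ → Smooth S u₂ → (u₁ : ℝ) ≤ |(y : ℝ)| ^ B → (u₂ : ℝ) ≤ |(y : ℝ)| ^ B →
      |((h * u₂ * y - a * u₁ : ℤ) : ℝ)| ≤ u₂ * |(y : ℝ)| ^ (1 / 3 - δ) →
      |(x : ℝ)| ^ (3 / 2 : ℝ) ≤ C * |(y : ℝ) ^ 2 - (x : ℝ) ^ 3| := by
  obtain ⟨γ, hγ⟩ : ∃ γ, γ = min δ (1 / 4) := ⟨_, rfl⟩
  have hγ0 : 0 < γ := by rw [hγ]; exact lt_min hδ (by norm_num)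
  have hγ1 : γ ≤ 1 / 4 := by rw [hγ]; exact min_le_right _ _
  have hγ2 : γ ≤ δ := by rw [hγ]; exact min_le_left _ _
  obtain ⟨C₁, hC1, h1⟩ := ord_small S H (3 / 2 * B + 1) γ (by linarith) hγ0
  obtain ⟨X₁, hX₁⟩ := ev_rpow (2 ^ B) (by norm_num : (0 : ℝ) < 1)
  obtain ⟨X₂, hX₂⟩ := ev_rpow 2 (by linarith : 0 < γ / 2)
  obtain ⟨X₀, hX₀⟩ : ∃ X₀, X₀ = max X₁ X₂ := ⟨_, rfl⟩
  refine ⟨(C₁ + 1) + X₀ ^ 2 + 1, by positivity, ?_⟩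
  intro x y a h u₁ u₂ hne ha hh haH hhH hu1 hu2 hb1 hb2 hr
  refine triv2 hne (by positivity) (int_rpow_le (by norm_num)) fun hx1 hx => ?_
  have hx0 : 0 < |(x : ℝ)| := by linarith
  have e1 := hX₁ |(x : ℝ)| ((le_max_left _ _).trans (hX₀ ▸ hx))
  have e2 := hX₂ |(x : ℝ)| ((le_max_right _ _).trans (hX₀ ▸ hx))
  have hD0 : 0 ≤ |(y : ℝ) ^ 2 - (x : ℝ) ^ 3| := abs_nonneg _
  have hC1' : |(y : ℝ) ^ 2 - (x : ℝ) ^ 3| ≤ (C₁ + 1) * |(y : ℝ) ^ 2 - (x : ℝ) ^ 3| :=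
    le_mul_of_one_le_left hD0 (by linarith)
  by_cases hy0 : y = 0
  · exact (y_zero hy0 (by norm_num) hx1).trans hC1'
  have hy1 : (1 : ℝ) ≤ |(y : ℝ)| := by
    have : 1 ≤ |y| := Int.one_le_abs hy0
    exact_mod_cast this
  rcases lt_or_ge (|(x : ℝ)| ^ 2) |(y : ℝ) ^ 2 - (x : ℝ) ^ 3| with hD | hD
  · exact (big_D (by norm_num) hx1 hD).trans hC1'
  have hyx := y_le hx1 hD
  have hyB : |(y : ℝ)| ^ B ≤ |(x : ℝ)| ^ (3 / 2 * B + 1) := by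
    calc |(y : ℝ)| ^ B ≤ (2 * |(x : ℝ)| ^ (3 / 2 : ℝ)) ^ B := Real.rpow_le_rpow (by positivity) hyx hB
      _ = 2 ^ B * |(x : ℝ)| ^ (3 / 2 * B) := by
          rw [Real.mul_rpow (by norm_num) (by positivity), ← Real.rpow_mul hx0.le]
      _ ≤ |(x : ℝ)| ^ (1 : ℝ) * |(x : ℝ)| ^ (3 / 2 * B) := by gcongr
      _ = _ := by
          rw [← Real.rpow_add hx0]
          congr 1
          ring
  have h3 := h1 x y a h (h * u₂ * y - a * u₁) u₁ u₂ 1 hne ha hh haH hhH hu1 hu2 (Smooth.one S)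
    (hb1.trans hyB) (hb2.trans hyB) (by push_cast; ring) (by
      rw [Nat.cast_one, one_mul]
      calc |((h * u₂ * y - a * u₁ : ℤ) : ℝ)| ≤ u₂ * |(y : ℝ)| ^ (1 / 3 - δ) := hr
        _ ≤ u₂ * (2 * |(x : ℝ)| ^ (3 / 2 * (1 / 3 - γ))) := by
            gcongr
            exact y_rpow hx1 hy1 hyx (by linarith) (by linarith) (by linarith)
        _ ≤ u₂ * (|(x : ℝ)| ^ (γ / 2) * |(x : ℝ)| ^ (3 / 2 * (1 / 3 - γ))) := by gcongr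
        _ = _ := by
            rw [← Real.rpow_add hx0]
            congr 2
            ring)
  calc |(x : ℝ)| ^ (3 / 2 : ℝ) ≤ C₁ * |(y : ℝ) ^ 2 - (x : ℝ) ^ 3| := h3
    _ ≤ _ := by gcongr; linarith

/-- **powers of rational numbers** -/
theorem ord_pow (p q H : ℕ) (hq : 0 < q) (hpq : q < p) (δ : ℝ) (hδ : 0 < δ) :
    ∃ C : ℝ, 0 < C ∧ ∀ (m : ℕ) (x y a h : ℤ), y ^ 2 ≠ x ^ 3 → a ≠ 0 → h ≠ 0 → |a| ≤ H → |h| ≤ H →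
      |((h * q ^ m * y - a * p ^ m : ℤ) : ℝ)| ≤ q ^ m * |(y : ℝ)| ^ (1 / 3 - δ) →
      |(x : ℝ)| ^ (3 / 2 : ℝ) ≤ C * |(y : ℝ) ^ 2 - (x : ℝ) ^ 3| := by
  have hp : 0 < p := by omega
  have hqr : (0 : ℝ) < q := by exact_mod_cast hq
  have hpr : (0 : ℝ) < p := by exact_mod_cast hp
  have hpqr : (q : ℝ) < p := by exact_mod_cast hpq
  have hz1 : 1 < (p : ℝ) / q := by rw [lt_div_iff₀ hqr]; linarith
  have hlz : 0 < Real.log ((p : ℝ) / q) := Real.log_pos hz1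
  obtain ⟨β, hβ⟩ : ∃ β, β = Real.log p / Real.log ((p : ℝ) / q) := ⟨_, rfl⟩
  have hp1 : (1 : ℝ) ≤ p := by exact_mod_cast hp
  have hβ0 : 0 ≤ β := by rw [hβ]; exact div_nonneg (Real.log_nonneg hp1) hlz.le
  have hpβ : (p : ℝ) = ((p : ℝ) / q) ^ β := by
    rw [hβ, Real.rpow_def_of_pos (by positivity), mul_div_cancel₀ _ hlz.ne', Real.exp_log hpr]
  obtain ⟨C, hC, h1⟩ := ord_rat (p.primeFactors ∪ q.primeFactors) H (2 * β) δ (by linarith) hδ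
  obtain ⟨X₀, hX₀⟩ : ∃ X₀ : ℝ, X₀ = (H : ℝ) + 2 := ⟨_, rfl⟩
  refine ⟨(C + 1) + X₀ ^ 2 + 1, by positivity, ?_⟩
  intro m x y a h hne ha hh haH hhH hr
  refine triv2 hne (by positivity) (int_rpow_le (by norm_num)) fun hx1 hx => ?_
  have hD0 : 0 ≤ |(y : ℝ) ^ 2 - (x : ℝ) ^ 3| := abs_nonneg _
  have hC1' : |(y : ℝ) ^ 2 - (x : ℝ) ^ 3| ≤ (C + 1) * |(y : ℝ) ^ 2 - (x : ℝ) ^ 3| :=
    le_mul_of_one_le_left hD0 (by linarith)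
  have hH0 : (0 : ℝ) ≤ H := Nat.cast_nonneg _
  rcases lt_or_ge (|(x : ℝ)| ^ 2) |(y : ℝ) ^ 2 - (x : ℝ) ^ 3| with hD | hD
  · exact (big_D (by norm_num) hx1 hD).trans hC1'
  have hyx := y_ge (by rw [hX₀] at hx; linarith) hD
  have hyH : (H : ℝ) + 2 ≤ |(y : ℝ)| := by rw [hX₀] at hx; linarith
  have hy1 : (1 : ℝ) ≤ |(y : ℝ)| := by linarith
  have ha1 : (1 : ℝ) ≤ |(a : ℝ)| := by
    have : 1 ≤ |a| := Int.one_le_abs ha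
    exact_mod_cast this
  have hhH' : |(h : ℝ)| ≤ H := by exact_mod_cast hhH
  have hS : ∀ b : ℕ, 0 < b → (b = p ∨ b = q) → Smooth (p.primeFactors ∪ q.primeFactors) (b ^ m) := by
    intro b hb hb'
    refine Smooth.pow ⟨hb.ne', ?_⟩ m
    rcases hb' with rfl | rfl
    · exact subset_union_left
    · exact subset_union_right
  -- the size of `(p / q) ^ m`
  have h2 : ((p : ℝ) / q) ^ m ≤ |(y : ℝ)| ^ (2 : ℝ) := by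
    have h3 : |(a : ℝ) * p ^ m| ≤ |(h : ℝ) * q ^ m * y| + |((h * q ^ m * y - a * p ^ m : ℤ) : ℝ)| := by
      push_cast
      have : (a : ℝ) * p ^ m = h * q ^ m * y - (h * q ^ m * y - a * p ^ m) := by ring
      calc |(a : ℝ) * p ^ m| = |(h : ℝ) * q ^ m * y - (h * q ^ m * y - a * p ^ m)| := by rw [← this]
        _ ≤ _ := abs_sub _ _
    have h4 : (p : ℝ) ^ m ≤ |(a : ℝ) * p ^ m| := by
      rw [abs_mul, abs_of_pos (pow_pos hpr m)]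
      exact le_mul_of_one_le_left (pow_pos hpr m).le ha1
    have h5 : |(h : ℝ) * q ^ m * y| ≤ H * q ^ m * |(y : ℝ)| := by
      rw [abs_mul, abs_mul, abs_of_pos (pow_pos hqr m)]
      gcongr
    have h6 : |(y : ℝ)| ^ (1 / 3 - δ) ≤ |(y : ℝ)| := by
      calc |(y : ℝ)| ^ (1 / 3 - δ) ≤ |(y : ℝ)| ^ (1 : ℝ) :=
            Real.rpow_le_rpow_of_exponent_le hy1 (by linarith)
        _ = _ := Real.rpow_one _
    have h7 : (q : ℝ) ^ m * |(y : ℝ)| ^ (1 / 3 - δ) ≤ q ^ m * |(y : ℝ)| := by gcongr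
    have h8 : |(y : ℝ)| ^ (2 : ℝ) = |(y : ℝ)| * |(y : ℝ)| := by
      rw [show (2 : ℝ) = ((2 : ℕ) : ℝ) by norm_num, Real.rpow_natCast, sq]
    rw [div_pow, div_le_iff₀ (pow_pos hqr m), h8]
    calc (p : ℝ) ^ m ≤ H * q ^ m * |(y : ℝ)| + q ^ m * |(y : ℝ)| := by linarith
      _ = ((H + 1) * |(y : ℝ)|) * q ^ m := by ring
      _ ≤ (|(y : ℝ)| * |(y : ℝ)|) * q ^ m := by
          gcongr
          linarith
  have h3 : ((p ^ m : ℕ) : ℝ) ≤ |(y : ℝ)| ^ (2 * β) := by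
    push_cast
    calc (p : ℝ) ^ m = (((p : ℝ) / q) ^ β) ^ m := by rw [← hpβ]
      _ = (((p : ℝ) / q) ^ m) ^ β := by
          rw [← Real.rpow_natCast, ← Real.rpow_natCast, ← Real.rpow_mul (by positivity),
            ← Real.rpow_mul (by positivity), mul_comm]
      _ ≤ (|(y : ℝ)| ^ (2 : ℝ)) ^ β := Real.rpow_le_rpow (by positivity) h2 hβ0
      _ = _ := by rw [← Real.rpow_mul (by positivity)]
  have h4 : ((q ^ m : ℕ) : ℝ) ≤ |(y : ℝ)| ^ (2 * β) := by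
    refine le_trans ?_ h3
    push_cast
    exact pow_le_pow_left₀ hqr.le hpqr.le m
  have h5 := h1 x y a h (p ^ m) (q ^ m) hne ha hh haH hhH (hS p hp (Or.inl rfl)) (hS q hq (Or.inr rfl)) h3 h4
    (by push_cast at hr ⊢; exact hr)
  calc |(x : ℝ)| ^ (3 / 2 : ℝ) ≤ C * |(y : ℝ) ^ 2 - (x : ℝ) ^ 3| := h5
    _ ≤ _ := by gcongr; linarith

end Pool.Agent.Zk43.HO
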